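import Mathlib

set_option autoImplicit false

namespace Pool.Agent.P.MP_8f38d0_ag

open Topology Filter

section avg
variable {G Q I : Type} [Group G] [Group Q] [Fintype Q] [AddCommGroup I]

theorem sum_shift (π : G →* Q) (s : Q → G) (hs : ∀ q, π (s q) = q) (F : G → I)
    (hF : ∀ g g', π g = π g' → F g = F g') (h : G) :
    ∑ q, F (h * s q) = ∑ q, F (s q) := by
  rw [← Equiv.sum_comp (Equiv.mulLeft (π h)) (fun q => F (s q))]
  refine Finset.sum_congr rfl (fun q _ => hF _ _ ?_)
  simp [hs]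

variable [DistribMulAction G I]

/-- Weighted averaging of a two-cocycle. -/
theorem avg2 (π : G →* Q) (s : Q → G) (hs : ∀ q, π (s q) = q) (μ : G → I →+ I)
    (hμ1 : ∀ g g', π g = π g' → μ g = μ g')
    (hμ2 : ∀ g h x, g • μ h x = μ (g * h) (g • x))
    (φ : G → G → I) (hφ1 : ∀ g j j', π j = π j' → φ g j = φ g j')
    (hφ2 : ∀ g h j, φ (g * h) j + φ g h = g • φ h j + φ g (h * j)) (g h : G) :
    ∑ q, μ (s q) (φ g h) = (∑ q, μ (g * s q) (φ g (s q))) + g • (∑ q, μ (h * s q) (φ h (s q)))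
      - ∑ q, μ (g * h * s q) (φ (g * h) (s q)) := by
  have e1 : ∑ q, μ (s q) (φ g h) = ∑ q, μ (g * h * s q) (φ g h) :=
    (sum_shift π s hs (fun j => μ j (φ g h)) (fun a b hab => by simp only [hμ1 a b hab]) (g * h)).symm
  have e2 : ∑ q, μ (g * s q) (φ g (s q)) = ∑ q, μ (g * (h * s q)) (φ g (h * s q)) :=
    (sum_shift π s hs (fun j => μ (g * j) (φ g j)) (fun a b hab => by
      simp only [hμ1 (g * a) (g * b) (by simp [hab]), hφ1 g a b hab]) h).symm
  rw [e1, e2, Finset.smul_sum, ← Finset.sum_add_distrib, ← Finset.sum_sub_distrib]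
  refine Finset.sum_congr rfl (fun q _ => ?_)
  rw [hμ2, ← mul_assoc, ← map_add, ← map_sub]
  congr 1
  rw [eq_sub_iff_add_eq, add_comm, hφ2, add_comm]

/-- Weighted averaging of a one-cocycle. -/
theorem avg1 (π : G →* Q) (s : Q → G) (hs : ∀ q, π (s q) = q) (μ : G → I →+ I)
    (hμ1 : ∀ g g', π g = π g' → μ g = μ g')
    (hμ2 : ∀ g h x, g • μ h x = μ (g * h) (g • x))
    (c : G → I) (hc1 : ∀ j j', π j = π j' → c j = c j')
    (hc2 : ∀ g h, c (g * h) = c g + g • c h) (g : G) :
    ∑ q, μ (s q) (c g) = (∑ q, μ (s q) (c (s q))) - g • (∑ q, μ (s q) (c (s q))) := by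
  have e1 : ∑ q, μ (s q) (c g) = ∑ q, μ (g * s q) (c g) :=
    (sum_shift π s hs (fun j => μ j (c g)) (fun a b hab => by simp only [hμ1 a b hab]) g).symm
  have e2 : ∑ q, μ (s q) (c (s q)) = ∑ q, μ (g * s q) (c (g * s q)) :=
    (sum_shift π s hs (fun j => μ j (c j)) (fun a b hab => by
      simp only [hμ1 a b hab, hc1 a b hab]) g).symm
  rw [e1, Finset.smul_sum]
  conv_rhs => rw [e2]
  rw [← Finset.sum_sub_distrib]
  refine Finset.sum_congr rfl (fun q _ => ?_)
  rw [hμ2, ← map_sub, hc2]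
  simp

end avg

section top
variable {G : Type} [Group G] [TopologicalSpace G] [IsTopologicalGroup G] [CompactSpace G]

/-- A continuous function of two group variables with discrete values is uniformly locally
constant in the second one. -/
theorem unif_nhds {I : Type} [TopologicalSpace I] [DiscreteTopology I] (φ : G → G → I)
    (hφ : Continuous (fun p : G × G => φ p.1 p.2)) :
    {u : G | ∀ g j, φ g (j * u) = φ g j} ∈ 𝓝 (1 : G) := by
  have := (isCompact_univ (X := G × G)).eventually_forall_of_forall_eventually (x₀ := (1 : G))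
    (P := fun u p => φ p.1 (p.2 * u) = φ p.1 p.2) (by
      intro y _
      have h1 : Continuous (fun z : G × (G × G) => φ z.2.1 (z.2.2 * z.1)) :=
        hφ.comp (f := fun z : G × (G × G) => (z.2.1, z.2.2 * z.1)) (by fun_prop)
      have h2 : Continuous (fun z : G × (G × G) => φ z.2.1 z.2.2) :=
        hφ.comp (f := fun z : G × (G × G) => (z.2.1, z.2.2)) (by fun_prop)
      have h3 : IsOpen {z : G × (G × G) | φ z.2.1 (z.2.2 * z.1) = φ z.2.1 z.2.2} :=
        (isOpen_discrete {p : I × I | p.1 = p.2}).preimage (h1.prodMk h2)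
      exact h3.mem_nhds (by simp))
  filter_upwards [this] with u hu g j
  exact hu (g, j) (Set.mem_univ _)

end top

/-- `G` has arbitrarily small open kernels of maps onto finite `p`-groups. -/
def ProP (p : ℕ) (G : Type) [Group G] [TopologicalSpace G] : Prop :=
  ∀ W ∈ 𝓝 (1 : G), ∃ (Q : Type) (_ : Group Q) (_ : Fintype Q) (π : G →* Q),
    Function.Surjective π ∧ (∀ g, π g = 1 → g ∈ W) ∧ ∃ a, Fintype.card Q = p ^ a

/-- Continuous two-cocycles with values in `ZMod p` are coboundaries. -/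
def H2Zero (p : ℕ) (G : Type) [Group G] [TopologicalSpace G] : Prop :=
  ∀ φ : G → G → ZMod p, Continuous (fun q : G × G => φ q.1 q.2) →
    (∀ g h j, φ (g * h) j + φ g h = φ h j + φ g (h * j)) →
    ∃ ψ : G → ZMod p, Continuous ψ ∧ ∀ g h, φ g h = ψ g + ψ h - ψ (g * h)

end Pool.Agent.P.MP_8f38d0_ag
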