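import Mathlib

set_option autoImplicit false

namespace Pool.Agent.P.MP_8f38d0_ag

open Polynomial IntermediateField

theorem separable_of_not_dvd {F : Type} [Field F] (p : ℕ) [CharP F p] {f : F[X]}
    (hf : Irreducible f) (h : ¬ p ∣ f.natDegree) : f.Separable := by
  rcases separable_or p hf with h1 | ⟨-, g, -, rfl⟩
  · exact h1
  · exact absurd (by rw [natDegree_expand]; exact dvd_mul_left _ _) h

theorem isSeparable_of_not_dvd {F E : Type} [Field F] [Field E] [Algebra F E] (p : ℕ) [CharP F p]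
    [FiniteDimensional F E] (h : ¬ p ∣ Module.finrank F E) : Algebra.IsSeparable F E := by
  refine ⟨fun x => ?_⟩
  have hx : IsIntegral F x := Algebra.IsIntegral.isIntegral x
  exact separable_of_not_dvd p (minpoly.irreducible hx)
    (fun h1 => h (h1.trans (minpoly.degree_dvd hx)))

variable {K Ω : Type} [Field K] [Field Ω] [Algebra K Ω] [Algebra.IsAlgebraic K Ω]

/-- All elements have degree prime to `p`. -/
def PrimeTo (p : ℕ) (k : IntermediateField K Ω) : Prop :=
  ∀ α ∈ k, ¬ p ∣ (minpoly K α).natDegree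

theorem PrimeTo.finrank {p : ℕ} [CharP K p] {k : IntermediateField K Ω} (hk : PrimeTo p k)
    (E : IntermediateField K Ω) [FiniteDimensional K E] (hE : E ≤ k) :
    ¬ p ∣ Module.finrank K E := by
  have : Algebra.IsSeparable K E := by
    refine ⟨fun x => ?_⟩
    have hx : IsIntegral K x := Algebra.IsIntegral.isIntegral x
    refine separable_of_not_dvd p (minpoly.irreducible hx) ?_
    rw [IntermediateField.minpoly_eq]
    exact hk _ (hE x.2)
  obtain ⟨α, hα⟩ := Field.exists_primitive_element K E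
  rw [← (Field.primitive_element_iff_minpoly_natDegree_eq K α).1 hα, IntermediateField.minpoly_eq]
  exact hk _ (hE α.2)

theorem deg_le (F F' : IntermediateField K Ω) (α : Ω)
    (h : ∀ n, (((minpoly F α).coeff n : F) : Ω) ∈ F') :
    (minpoly F' α).natDegree ≤ (minpoly F α).natDegree := by
  have hα : IsIntegral F α := (Algebra.IsIntegral.isIntegral (R := K) α).tower_top
  have hm : ((minpoly F α).map (algebraMap F Ω)).Monic := (minpoly.monic hα).map _
  have hl : (minpoly F α).map (algebraMap F Ω) ∈ lifts (algebraMap F' Ω) := by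
    rw [lifts_iff_coeff_lifts]
    intro n
    exact ⟨⟨_, h n⟩, by rw [coeff_map]; rfl⟩
  obtain ⟨q, hq1, hq2, hq3⟩ := lifts_and_natDegree_eq_and_monic hl hm
  have hq4 : aeval α q = 0 := by
    rw [aeval_def, eval₂_eq_eval_map, hq1, ← eval₂_eq_eval_map, ← aeval_def, minpoly.aeval]
  have := natDegree_le_natDegree (minpoly.min F' α hq3 hq4)
  rwa [hq2, natDegree_map] at this

theorem PrimeTo.adjoin {p : ℕ} [Fact p.Prime] [CharP K p] {k : IntermediateField K Ω}
    (hk : PrimeTo p k) (α : Ω) (hα : ¬ p ∣ (minpoly k α).natDegree) :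
    PrimeTo p (k⟮α⟯.restrictScalars K) := by
  classical
  intro β hβ
  have hαa : IsAlgebraic k α :=
    ((Algebra.IsIntegral.isIntegral (R := K) α).tower_top (A := k)).isAlgebraic
  have hβ' : β ∈ k⟮α⟯.toSubalgebra := hβ
  rw [adjoin_simple_toSubalgebra_of_isAlgebraic hαa, Algebra.adjoin_singleton_eq_range_aeval] at hβ'
  obtain ⟨q, hq⟩ := hβ'
  have hq' : aeval α q = β := hq
  let s : Set Ω := Subtype.val '' (((minpoly k α).coeffs ∪ q.coeffs : Finset k) : Set k)
  have : Finite s := Set.Finite.image _ (Finset.finite_toSet _)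
  let k0 := IntermediateField.adjoin K s
  have hle : k0 ≤ k := by
    rw [adjoin_le_iff]
    rintro _ ⟨x, -, rfl⟩
    exact x.2
  have : FiniteDimensional K k0 :=
    finiteDimensional_adjoin (fun x _ => Algebra.IsIntegral.isIntegral x)
  have h0 := hk.finrank k0 hle
  have hc : ∀ (f : k[X]), f.coeffs ⊆ (minpoly k α).coeffs ∪ q.coeffs →
      ∀ n, ((f.coeff n : k) : Ω) ∈ k0 := by
    intro f hf n
    by_cases h : f.coeff n = 0
    · rw [h]; exact k0.zero_mem
    · exact subset_adjoin K s ⟨_, hf (coeff_mem_coeffs h), rfl⟩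
  have hdeg : (minpoly k0 α).natDegree = (minpoly k α).natDegree :=
    le_antisymm (deg_le k k0 α (hc _ Finset.subset_union_left))
      (deg_le k0 k α (fun n => hle ((minpoly k0 α).coeff n).2))
  have hα0 : IsIntegral k0 α := (Algebra.IsIntegral.isIntegral (R := K) α).tower_top
  have : FiniteDimensional k0 k0⟮α⟯ := adjoin.finiteDimensional hα0
  have : FiniteDimensional K k0⟮α⟯ := Module.Finite.trans k0 k0⟮α⟯
  have hβ0 : β ∈ k0⟮α⟯ := by
    rw [← hq', aeval_eq_sum_range]
    refine sum_mem (fun i _ => ?_)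
    rw [Algebra.smul_def]
    exact mul_mem (k0⟮α⟯.algebraMap_mem ⟨_, hc q Finset.subset_union_right i⟩)
      (pow_mem (mem_adjoin_simple_self k0 α) i)
  have h1 : (minpoly K (⟨β, hβ0⟩ : k0⟮α⟯)).natDegree ∣ Module.finrank K k0⟮α⟯ :=
    minpoly.degree_dvd (Algebra.IsIntegral.isIntegral _)
  have : IsScalarTower K k0⟮α⟯ Ω := IsScalarTower.of_algebraMap_eq (fun _ => rfl)
  have h2 : minpoly K (⟨β, hβ0⟩ : k0⟮α⟯) = minpoly K β :=
    (minpoly.algebraMap_eq (algebraMap k0⟮α⟯ Ω).injective (⟨β, hβ0⟩ : k0⟮α⟯)).symm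
  rw [h2, ← Module.finrank_mul_finrank K k0 k0⟮α⟯, adjoin.finrank hα0, hdeg] at h1
  intro h3
  rcases (Nat.Prime.dvd_mul Fact.out).1 (h3.trans h1) with h4 | h4
  · exact h0 h4
  · exact hα h4

theorem exists_maximal_primeTo (p : ℕ) [Fact p.Prime] [CharP K p] [IsAlgClosed Ω] :
    ∃ k : IntermediateField K Ω, PrimeTo p k ∧
      ∀ f : k[X], Irreducible f → ¬ p ∣ f.natDegree → f.natDegree = 1 := by
  have hbot : PrimeTo p (⊥ : IntermediateField K Ω) := by
    rintro _ ⟨x, rfl⟩
    change ¬ p ∣ (minpoly K (algebraMap K Ω x)).natDegree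
    rw [minpoly.eq_X_sub_C, natDegree_X_sub_C, Nat.dvd_one]
    exact (Fact.out : p.Prime).ne_one
  obtain ⟨k, -, hk⟩ := zorn_le_nonempty₀ {k : IntermediateField K Ω | PrimeTo p k} (by
    intro c hc hchain y hy
    have : Nonempty c := ⟨⟨y, hy⟩⟩
    refine ⟨⨆ z : c, z.1, ?_, fun z hz => le_iSup (fun z : c => z.1) ⟨z, hz⟩⟩
    intro α hα
    rw [← SetLike.mem_coe, coe_iSup_of_directed hchain.directedOn.directed_val,
      Set.mem_iUnion] at hα
    obtain ⟨z, hz⟩ := hα
    exact hc z.2 α hz) ⊥ hbot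
  refine ⟨k, hk.prop, fun f hf hp => ?_⟩
  obtain ⟨α, hα⟩ := IsAlgClosed.exists_aeval_eq_zero Ω f (degree_pos_of_irreducible hf).ne'
  have hdeg : (minpoly k α).natDegree = f.natDegree := by
    rw [← minpoly.eq_of_irreducible hf hα, natDegree_mul_C]
    exact inv_ne_zero (leadingCoeff_ne_zero.2 hf.ne_zero)
  have h1 := PrimeTo.adjoin hk.prop α (by rwa [hdeg])
  have h2 : k⟮α⟯.restrictScalars K ≤ k := hk.le_of_ge h1 (fun x hx =>
    k⟮α⟯.algebraMap_mem ⟨x, hx⟩)
  have h3 : α ∈ k := h2 (mem_adjoin_simple_self k α)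
  rw [← hdeg]
  exact minpoly.natDegree_eq_one_iff.2 ⟨⟨α, h3⟩, rfl⟩

/-- A field without irreducible polynomials of degree prime to `p` other than linear ones has no
proper finite extension of degree prime to `p`. -/
theorem surj_of_not_dvd {k L : Type} [Field k] [Field L] [Algebra k L] [FiniteDimensional k L]
    {p : ℕ} (hk : ∀ f : k[X], Irreducible f → ¬ p ∣ f.natDegree → f.natDegree = 1)
    (h : ¬ p ∣ Module.finrank k L) : Function.Surjective (algebraMap k L) := by
  intro x
  have hx : IsIntegral k x := Algebra.IsIntegral.isIntegral x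
  exact minpoly.natDegree_eq_one_iff.1 (hk _ (minpoly.irreducible hx)
    (fun h1 => h (h1.trans (minpoly.degree_dvd hx))))

theorem finrank_pow_of_galois {k L : Type} [Field k] [Field L] [Algebra k L]
    [FiniteDimensional k L] [IsGalois k L] {p : ℕ} [Fact p.Prime]
    (hk : ∀ f : k[X], Irreducible f → ¬ p ∣ f.natDegree → f.natDegree = 1) :
    ∃ a, Module.finrank k L = p ^ a := by
  obtain ⟨P⟩ : Nonempty (Sylow p (L ≃ₐ[k] L)) := inferInstance
  obtain ⟨a, ha⟩ := (IsPGroup.iff_card (p := p)).1 P.isPGroup'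
  have h1 := finrank_fixedField_eq_card (P : Subgroup (L ≃ₐ[k] L))
  have h2 := Module.finrank_mul_finrank k (fixedField (P : Subgroup (L ≃ₐ[k] L))) L
  have h3 := IsGalois.card_aut_eq_finrank k L
  have h4 := (P : Subgroup (L ≃ₐ[k] L)).index_mul_card
  have h5 : Module.finrank k (fixedField (P : Subgroup (L ≃ₐ[k] L)))
      = (P : Subgroup (L ≃ₐ[k] L)).index := by
    rw [h1, ← h3, ← h4] at h2
    exact Nat.eq_of_mul_eq_mul_right Nat.card_pos h2
  have h6 := surj_of_not_dvd hk (L := fixedField (P : Subgroup (L ≃ₐ[k] L)))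
    (by rw [h5]; exact P.not_dvd_index)
  have h7 : Module.finrank k (fixedField (P : Subgroup (L ≃ₐ[k] L))) = 1 :=
    (Algebra.finrank_eq_one_iff_bijective_algebraMap).2 ⟨(algebraMap k _).injective, h6⟩
  exact ⟨a, by rw [← h2, h7, one_mul, h1, ha]⟩

end Pool.Agent.P.MP_8f38d0_ag
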