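import Mathlib
import Pool.Agent.P.MP_8f38d0_ag.Avg

set_option autoImplicit false

namespace Pool.Agent.P.MP_8f38d0_ag

open Topology Filter

variable {G I : Type} [Group G] [TopologicalSpace G] [IsTopologicalGroup G] [CompactSpace G]
  [AddCommGroup I] [TopologicalSpace I] [DiscreteTopology I] [DistribMulAction G I]
  [ContinuousSMul G I]

/-- The failure of `c` to be a crossed homomorphism. -/
def defect (c : G → I) (g h : G) : I := c g + g • c h - c (g * h)

omit [TopologicalSpace G] [IsTopologicalGroup G] [CompactSpace G] [TopologicalSpace I]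
  [DiscreteTopology I] [ContinuousSMul G I] in
theorem defect_cocycle (c : G → I) (g h j : G) :
    defect c (g * h) j + defect c g h = g • defect c h j + defect c g (h * j) := by
  simp only [defect, smul_sub, smul_add, mul_smul, mul_assoc]
  abel

omit [CompactSpace G] in
theorem defect_cont (c : G → I) (hc : Continuous c) :
    Continuous (fun p : G × G => defect c p.1 p.2) := by
  have : ContinuousAdd I := ⟨continuous_of_discreteTopology⟩
  have : ContinuousSub I := ⟨continuous_of_discreteTopology⟩
  unfold defect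
  fun_prop

omit [IsTopologicalGroup G] [CompactSpace G] in
theorem fix_nhds (M : AddSubgroup I) [Finite M] :
    {u : G | ∀ m ∈ M, u • m = m} ∈ 𝓝 (1 : G) := by
  have : ∀ m : M, ∀ᶠ u in 𝓝 (1 : G), u • (m : I) = m := by
    intro m
    have h1 : Continuous (fun u : G => u • (m : I)) := by fun_prop
    exact ((isOpen_discrete {(m : I)}).preimage h1).mem_nhds (by simp)
  filter_upwards [eventually_all.2 this] with u hu m hm
  exact hu ⟨m, hm⟩

omit [IsTopologicalGroup G] [CompactSpace G] in
/-- A nonzero functional to `ZMod p` can be replaced by an invariant one. -/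
theorem exists_inv_functional {p : ℕ} [Fact p.Prime] (hG : ProP p G) (M : AddSubgroup I) [Finite M]
    (hM : ∀ (g : G), ∀ m ∈ M, g • m ∈ M) (l0 : M →+ ZMod p) (hl0 : l0 ≠ 0) :
    ∃ l : M →+ ZMod p, l ≠ 0 ∧ ∀ (g : G) (m : M), l ⟨g • (m : I), hM g m m.2⟩ = l m := by
  classical
  let act : G → M →+ M := fun g =>
    { toFun := fun m => ⟨g • (m : I), hM g m m.2⟩
      map_zero' := Subtype.ext (by simp)
      map_add' := fun a b => Subtype.ext (by simp) }
  let _ : MulAction G (M →+ ZMod p) :=
    { smul := fun g l => l.comp (act g⁻¹)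
      one_smul := fun l => by
        ext m
        change l (act 1⁻¹ m) = l m
        congr 1
        exact Subtype.ext (by simp [act])
      mul_smul := fun g h l => by
        ext m
        change l (act (g * h)⁻¹ m) = l (act h⁻¹ (act g⁻¹ m))
        congr 1
        exact Subtype.ext (by simp [act, mul_smul]) }
  have hsm : ∀ (g : G) (l : M →+ ZMod p), g • l = l.comp (act g⁻¹) := fun _ _ => rfl
  have : Finite (M →+ ZMod p) := Finite.of_injective _ DFunLike.coe_injective
  obtain ⟨Q, _, _, π, -, hW, a, ha⟩ := hG _ (fix_nhds (G := G) M)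
  let H := (MulAction.toPermHom G (M →+ ZMod p)).range
  have hH : IsPGroup p H := by
    rintro ⟨_, g, rfl⟩
    refine ⟨a, Subtype.ext ?_⟩
    have h1 : π ((g ^ p ^ a)⁻¹) = 1 := by
      rw [map_inv, map_pow, ← ha, pow_card_eq_one, inv_one]
    have h2 := hW _ h1
    simp only [SubgroupClass.coe_pow, OneMemClass.coe_one, ← map_pow]
    ext l m
    change (g ^ p ^ a • l) m = l m
    rw [hsm]
    change l (act _ m) = l m
    congr 1
    exact Subtype.ext (h2 m m.2)
  have hdvd : p ∣ Nat.card (M →+ ZMod p) := by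
    have : addOrderOf l0 = p := by
      refine addOrderOf_eq_prime ?_ hl0
      ext m
      simp
    have h2 := addOrderOf_dvd_natCard l0
    rwa [this] at h2
  have h0 : (0 : M →+ ZMod p) ∈ MulAction.fixedPoints H (M →+ ZMod p) := by
    rintro ⟨_, g, rfl⟩
    change g • (0 : M →+ ZMod p) = 0
    rw [hsm]; rfl
  obtain ⟨l, hl, hne⟩ := hH.exists_fixed_point_of_prime_dvd_card_of_fixed_point _ hdvd h0
  refine ⟨l, hne.symm, fun g m => ?_⟩
  have h1 : g⁻¹ • l = l := hl ⟨_, g⁻¹, rfl⟩
  have h2 := DFunLike.congr_fun h1 m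
  rw [hsm, inv_inv] at h2
  exact h2

theorem eq_zero_of_dual {K V : Type} [Field K] [AddCommGroup V] [Module K V] (v : V)
    (h : ∀ f : V →ₗ[K] K, f v = 0) : v = 0 :=
  (Module.forall_dual_apply_eq_zero_iff K v).1 h

/-- If a finite abelian group has no nonzero map to `ZMod p`, multiplication by `p` is
bijective. -/
theorem bij_of_no_functional {p : ℕ} [Fact p.Prime] (M : Type) [AddCommGroup M] [Finite M]
    (h : ∀ l : M →+ ZMod p, l = 0) : Function.Bijective (fun m : M => p • m) := by
  have hsurj : Function.Surjective (fun m : M => p • m) := by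
    by_contra hs
    let R : AddSubgroup M := (nsmulAddMonoidHom p : M →+ M).range
    let _ : Module (ZMod p) (M ⧸ R) := QuotientAddGroup.zmodModule (fun x => ⟨x, rfl⟩)
    simp only [Function.Surjective, not_forall] at hs
    obtain ⟨m, hm⟩ := hs
    have hm' : (QuotientAddGroup.mk m : M ⧸ R) ≠ 0 := by
      intro h0
      rw [QuotientAddGroup.eq_zero_iff] at h0
      exact hm h0
    apply hm'
    refine eq_zero_of_dual (K := ZMod p) _ (fun f => ?_)
    exact DFunLike.congr_fun (h (f.toAddMonoidHom.comp (QuotientAddGroup.mk' R))) m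
  exact (Finite.surjective_iff_bijective).1 hsurj

/-- One step of the lifting. -/
theorem lift_step {p : ℕ} [Fact p.Prime] (hG : ProP p G) (hG2 : H2Zero p G)
    (M : AddSubgroup I) [Finite M] (hM : ∀ (g : G), ∀ m ∈ M, g • m ∈ M) (hne : M ≠ ⊥)
    (c : G → I) (hc : Continuous c) (hd : ∀ g h, defect c g h ∈ M) :
    ∃ M' : AddSubgroup I, M' < M ∧ (∀ (g : G), ∀ m ∈ M', g • m ∈ M') ∧
      ∃ c' : G → I, Continuous c' ∧ (∀ g, c' g - c g ∈ M) ∧ ∀ g h, defect c' g h ∈ M' := by
  classical
  have : ContinuousAdd I := ⟨continuous_of_discreteTopology⟩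
  have : ContinuousSub I := ⟨continuous_of_discreteTopology⟩
  have hdc := defect_cont c hc
  have hdcM : Continuous (fun q : G × G => (⟨defect c q.1 q.2, hd _ _⟩ : M)) :=
    hdc.subtype_mk _
  by_cases hl : ∀ l : M →+ ZMod p, l = 0
  · have hb := bij_of_no_functional M hl
    obtain ⟨Q, _, _, π, hπ, hW, a, ha⟩ := hG _ (unif_nhds (defect c) hdc)
    have hb' : Function.Bijective (fun m : M => (Fintype.card Q) • m) := by
      rw [ha]
      clear ha
      induction a with
      | zero => simp only [pow_zero, one_smul]; exact Function.bijective_id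
      | succ a ih =>
        have : (fun m : M => p ^ (a + 1) • m) = (fun m : M => p ^ a • m) ∘ (fun m => p • m) := by
          funext m; simp [pow_succ, mul_smul]
        rw [this]; exact ih.comp hb
    obtain ⟨s, hs⟩ := hπ.hasRightInverse
    let ψ : G → M := fun g => ∑ q, ⟨defect c g (s q), hd _ _⟩
    have hψ : Continuous ψ := by
      have : ContinuousAdd M := ⟨continuous_of_discreteTopology⟩
      refine continuous_finsetSum _ (fun q _ => ?_)
      exact hdcM.comp (f := fun g : G => (g, s q)) (by fun_prop)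
    let e := Equiv.ofBijective _ hb'
    let ψ' : G → M := fun g => e.symm (ψ g)
    have hψ' : ∀ g, Fintype.card Q • ψ' g = ψ g := fun g => e.apply_symm_apply (ψ g)
    have hψ'c : Continuous ψ' := (continuous_of_discreteTopology (f := e.symm)).comp hψ
    have hav := avg2 π s hs (fun _ => AddMonoidHom.id I) (fun _ _ _ => rfl) (fun _ _ _ => rfl)
      (defect c) (by
        intro g j j' hj
        have := hW (j⁻¹ * j') (by simp [hj]) g j
        rw [← this]; simp) (defect_cocycle c)
    refine ⟨⊥, bot_lt_iff_ne_bot.2 hne, by simp, fun g => c g - ψ' g, ?_, ?_, ?_⟩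
    · have : Continuous (fun g => (ψ' g : I)) := continuous_subtype_val.comp hψ'c
      fun_prop
    · intro g
      simp
    · intro g h
      rw [AddSubgroup.mem_bot]
      have h1 : defect (fun g => c g - ψ' g) g h
          = defect c g h - ((ψ' g : I) + g • (ψ' h : I) - ψ' (g * h)) := by
        simp only [defect, smul_sub]; abel
      have hmem : defect c g h - ((ψ' g : I) + g • (ψ' h : I) - ψ' (g * h)) ∈ M :=
        M.sub_mem (hd _ _) (M.sub_mem (M.add_mem (ψ' g).2 (hM _ _ (ψ' h).2)) (ψ' _).2)
      have hcoe : ∀ g, Fintype.card Q • (ψ' g : I) = ∑ q, defect c g (s q) := by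
        intro g
        have := congrArg Subtype.val (hψ' g)
        simpa [ψ] using this
      have h2 : Fintype.card Q • (⟨_, hmem⟩ : M) = Fintype.card Q • (0 : M) := by
        apply Subtype.ext
        have h3 := hav g h
        simp only [AddMonoidHom.id_apply, Finset.sum_const, Finset.card_univ] at h3
        simp only [AddSubgroupClass.coe_nsmul, smul_sub, smul_add, smul_zero,
          ZeroMemClass.coe_zero]
        rw [smul_comm _ g, hcoe, hcoe, hcoe, h3, sub_self]
      rw [h1]
      exact congrArg Subtype.val (hb'.1 h2)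
  · push Not at hl
    obtain ⟨l0, hl0⟩ := hl
    obtain ⟨l, hl, hinv⟩ := exists_inv_functional hG M hM l0 hl0
    obtain ⟨m0, hm0⟩ : ∃ m0 : M, l m0 = 1 := by
      obtain ⟨m, hm⟩ := DFunLike.ne_iff.1 hl
      refine ⟨((l m)⁻¹).val • m, ?_⟩
      rw [map_nsmul, nsmul_eq_mul, ZMod.natCast_zmod_val]
      exact inv_mul_cancel₀ hm
    obtain ⟨ψ, hψc, hψ⟩ := hG2 (fun g h => l ⟨defect c g h, hd g h⟩)
      ((continuous_of_discreteTopology (f := l)).comp hdcM) (by
        intro g h j
        rw [← hinv g ⟨defect c h j, hd h j⟩, ← map_add, ← map_add]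
        congr 1
        exact Subtype.ext (defect_cocycle c g h j))
    let t : G → M := fun g => (ψ g).val • m0
    have ht : ∀ g, l (t g) = ψ g := by
      intro g
      simp only [t]
      rw [map_nsmul, hm0, nsmul_eq_mul, mul_one, ZMod.natCast_zmod_val]
    have htc : Continuous t :=
      (continuous_of_discreteTopology (f := fun z : ZMod p => z.val • m0)).comp hψc
    refine ⟨l.ker.map M.subtype, ?_, ?_, fun g => c g - t g, ?_, ?_, ?_⟩
    · refine lt_of_le_of_ne (AddSubgroup.map_subtype_le _) (fun heq => ?_)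
      have : (m0 : I) ∈ l.ker.map M.subtype := by rw [heq]; exact m0.2
      obtain ⟨m1, h1, h2⟩ := this
      have h3 : m1 = m0 := Subtype.ext h2
      rw [h3] at h1
      have h4 : l m0 = 0 := h1
      rw [hm0] at h4
      exact one_ne_zero h4
    · rintro g _ ⟨m, hm, rfl⟩
      exact ⟨⟨g • (m : I), hM g m m.2⟩, (hinv g m).trans hm, rfl⟩
    · have : Continuous (fun g => (t g : I)) := continuous_subtype_val.comp htc
      fun_prop
    · intro g
      simp
    · intro g h
      refine ⟨⟨defect c g h, hd g h⟩ - (t g + ⟨g • (t h : I), hM g _ (t h).2⟩ - t (g * h)), ?_, ?_⟩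
      · change l _ = 0
        rw [map_sub, map_sub, map_add, hinv, ht, ht, ht, hψ, sub_self]
      · simp only [defect, smul_sub, AddSubgroup.coe_subtype, AddSubgroupClass.coe_sub,
          AddMemClass.coe_add]
        abel

theorem lift_finite {p : ℕ} [Fact p.Prime] (hG : ProP p G) (hG2 : H2Zero p G) (n : ℕ) :
    ∀ (M : AddSubgroup I) [Finite M], Nat.card M = n → (∀ (g : G), ∀ m ∈ M, g • m ∈ M) →
    ∀ c : G → I, Continuous c → (∀ g h, defect c g h ∈ M) →
    ∃ c' : G → I, Continuous c' ∧ (∀ g, c' g - c g ∈ M) ∧ ∀ g h, defect c' g h = 0 := by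
  induction n using Nat.strong_induction_on with
  | _ n ih =>
    intro M _ hn hM c hc hd
    by_cases hne : M = ⊥
    · subst hne
      exact ⟨c, hc, by simp, fun g h => AddSubgroup.mem_bot.1 (hd g h)⟩
    obtain ⟨M', hlt, hM', c', hc', h1, h2⟩ := lift_step hG hG2 M hM hne c hc hd
    have : Finite M' := Finite.of_injective _ (AddSubgroup.inclusion_injective hlt.le)
    have hcard : Nat.card M' < n := by
      rw [← hn]
      exact Set.ncard_lt_ncard (s := (M' : Set I)) (t := (M : Set I)) hlt (Set.toFinite _)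
    obtain ⟨c'', hc'', h3, h4⟩ := ih _ hcard M' rfl hM' c' hc' h2
    refine ⟨c'', hc'', fun g => ?_, h4⟩
    have := M.add_mem (hlt.le (h3 g)) (h1 g)
    simpa using this

/-- Lifting of crossed homomorphisms along a surjection of discrete torsion modules. -/
theorem lift_crossed {p : ℕ} [Fact p.Prime] (hG : ProP p G) (hG2 : H2Zero p G)
    (htors : ∀ x : I, IsOfFinAddOrder x)
    (M : AddSubgroup I) (hM : ∀ (g : G), ∀ m ∈ M, g • m ∈ M)
    (c : G → I) (hc : Continuous c) (hd : ∀ g h, defect c g h ∈ M) :
    ∃ c' : G → I, Continuous c' ∧ (∀ g, c' g - c g ∈ M) ∧ ∀ g h, defect c' g h = 0 := by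
  have hdc := defect_cont c hc
  let T : Set I := Set.range (fun z : G × (G × G) => z.1 • defect c z.2.1 z.2.2)
  have hT : T.Finite := by
    refine (isCompact_range ?_).finite_of_discrete
    exact continuous_fst.smul (hdc.comp continuous_snd)
  let M0 := AddSubgroup.closure T
  have hle : M0 ≤ M := by
    rw [AddSubgroup.closure_le]
    rintro _ ⟨z, rfl⟩
    exact hM _ _ (hd _ _)
  have hM0 : ∀ (g : G), ∀ m ∈ M0, g • m ∈ M0 := by
    intro g m hm
    induction hm using AddSubgroup.closure_induction with
    | mem x hx =>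
      obtain ⟨z, rfl⟩ := hx
      exact AddSubgroup.subset_closure ⟨(g * z.1, z.2), by simp [mul_smul]⟩
    | zero => simp
    | add x y _ _ hx hy => rw [smul_add]; exact M0.add_mem hx hy
    | neg x _ hx => rw [smul_neg]; exact M0.neg_mem hx
  have : Finite T := hT
  have : Finite M0 := by
    refine AddCommGroup.finite_of_fg_isAddTorsion M0 (fun x => ?_)
    exact (M0.subtype_injective.isOfFinAddOrder_iff).1 (htors x)
  obtain ⟨c', h1, h2, h3⟩ := lift_finite hG hG2 _ M0 rfl hM0 c hc (fun g h =>
    AddSubgroup.subset_closure ⟨(1, g, h), by simp⟩)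
  exact ⟨c', h1, fun g => hle (h2 g), h3⟩

end Pool.Agent.P.MP_8f38d0_ag
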