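import Mathlib
import Pool.Agent.P.MP_8f38d0_ag.Lift

set_option autoImplicit false

namespace Pool.Agent.P.MP_8f38d0_ag

open Topology Filter CategoryTheory

variable {k : Type} [Ring k] [TopologicalSpace k]
  {G : Type} [Group G] [TopologicalSpace G] [IsTopologicalGroup G] [CompactSpace G]

/-- Discrete torsion modules with continuous action. -/
structure Good (X : TopRep.{0} k G) : Prop where
  disc : DiscreteTopology X
  cont : ∀ x : X, Continuous (fun g : G => X.ρ g x)
  tors : ∀ x : X, IsOfFinAddOrder x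

omit [IsTopologicalGroup G] [CompactSpace G] in
theorem Good.cont2 {X : TopRep.{0} k G} (h : Good X) :
    Continuous (fun p : G × X => X.ρ p.1 p.2) := by
  have := h.disc
  exact continuous_prod_of_discrete_right.2 h.cont

theorem Good.coind {X : TopRep.{0} k G} (h : Good X) : Good X.coind₁ := by
  have := h.disc
  refine ⟨?_, ?_, ?_⟩
  · change DiscreteTopology C(G, X)
    rw [discreteTopology_iff_isOpen_singleton_zero]
    have h1 := ContinuousMap.isOpen_setOfPred_mapsTo (X := G) (Y := X) isCompact_univ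
      (isOpen_discrete {0})
    convert h1 using 1
    ext f
    simp [Set.MapsTo, ContinuousMap.ext_iff]
  · intro f
    change Continuous (fun g : G => (X.ρ.coind₁ g f : C(G, X)))
    refine ContinuousMap.continuous_of_continuous_uncurry _ ?_
    have f' : Continuous (fun x : G => (show C(G, X) from f) x) := (show C(G, X) from f).continuous
    exact h.cont2.comp (f := fun p : G × G => (p.1, (show C(G, X) from f) (p.1⁻¹ * p.2)))
      (continuous_fst.prodMk (f'.comp (by fun_prop)))
  · intro f
    change IsOfFinAddOrder (show C(G, X) from f)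
    generalize (show C(G, X) from f) = F
    have hT : (Set.range F).Finite := (isCompact_range F.continuous).finite_of_discrete
    rw [isOfFinAddOrder_iff_nsmul_eq_zero]
    refine ⟨∏ x ∈ hT.toFinset, addOrderOf x, Finset.prod_pos (fun x _ => (h.tors x).addOrderOf_pos),
      ?_⟩
    ext g
    rw [ContinuousMap.nsmul_apply, ContinuousMap.zero_apply, ← addOrderOf_dvd_iff_nsmul_eq_zero]
    exact Finset.dvd_prod_of_mem _ (by simp)

theorem Good.res {X : TopRep.{0} k G} (h : Good X) (m : ℕ) : Good (X.resolutionX m) := by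
  induction m with
  | zero => exact h
  | succ m ih => exact ih.coind

/-- The action underlying a representation. -/
@[reducible] def actOf (X : TopRep.{0} k G) : DistribMulAction G X where
  smul g x := X.ρ g x
  one_smul x := by change X.ρ 1 x = x; simp
  mul_smul g h x := by change X.ρ (g * h) x = X.ρ g (X.ρ h x); simp
  smul_zero g := map_zero (X.ρ g)
  smul_add g := map_add (X.ρ g)

theorem lift_rep {p : ℕ} [Fact p.Prime] (hG : ProP p G) (hG2 : H2Zero p G)
    {I N : TopRep.{0} k G} (hI : Good I) (hN : Good N) (δ : I ⟶ N) (b : N)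
    (hb : ∀ g, ∃ y, δ.hom y = N.ρ g b - b) :
    ∃ c : G → I, Continuous c ∧ (∀ g, δ.hom (c g) = N.ρ g b - b) ∧
      ∀ g h, c (g * h) = c g + I.ρ g (c h) := by
  classical
  have := hI.disc
  have := hN.disc
  let _ := actOf I
  have hsm : ∀ (g : G) (x : I), g • x = I.ρ g x := fun _ _ => rfl
  have : ContinuousSMul G I := ⟨hI.cont2⟩
  let sec : N → I := fun z => if h : ∃ y, δ.hom y = z then h.choose else 0
  have hsec : ∀ g, δ.hom (sec (N.ρ g b - b)) = N.ρ g b - b := by
    intro g
    simp only [sec, dif_pos (hb g)]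
    exact (hb g).choose_spec
  let M : AddSubgroup I := (δ.hom.toContinuousLinearMap.toLinearMap.toAddMonoidHom).ker
  have hmem : ∀ x, x ∈ M ↔ δ.hom x = 0 := fun _ => Iff.rfl
  obtain ⟨c, h1, h2, h3⟩ := lift_crossed hG hG2 hI.tors M (by
      intro g m hm
      rw [hmem] at hm ⊢
      rw [hsm, TopRep.hom_comm_apply, hm, map_zero])
    (fun g => sec (N.ρ g b - b))
    ((continuous_of_discreteTopology (f := sec)).comp ((hN.cont b).sub continuous_const)) (by
      intro g h
      rw [hmem]
      simp only [defect]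
      rw [map_sub, map_add, hsm, TopRep.hom_comm_apply, hsec, hsec, hsec]
      simp)
  refine ⟨c, h1, fun g => ?_, fun g h => ?_⟩
  · have := (hmem _).1 (h2 g)
    rw [map_sub, hsec, sub_eq_zero] at this
    exact this
  · have := h3 g h
    simp only [defect] at this
    rw [sub_eq_zero, hsm] at this
    exact this.symm

theorem h1_coind (A : TopRep.{0} k G) (c : G → C(G, A)) (hc : Continuous c)
    (h : ∀ g h, c (g * h) = c g + A.ρ.coind₁ g (c h)) :
    ∃ y : C(G, A), ∀ g, c g = A.ρ.coind₁ g y - y := by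
  refine ⟨⟨fun x => -(c x x), by fun_prop⟩, fun g => ?_⟩
  ext x
  have := DFunLike.congr_fun (h g (g⁻¹ * x)) x
  simp only [mul_inv_cancel_left, ContinuousMap.add_apply,
    ContRepresentation.coind₁_apply_apply] at this
  simp only [ContinuousMap.sub_apply, ContRepresentation.coind₁_apply_apply, ContinuousMap.coe_mk,
    map_neg, this]
  abel

omit [CompactSpace G] in
theorem res_exact (X : TopRep.{0} k G) (m : ℕ) (f : X.resolutionX (m + 1))
    (hf : (X.d (m + 1)).hom f = 0) : (X.d m).hom ((show C(G, X.resolutionX m) from f) 1) = f := by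
  rw [TopRep.hom_d_succ, ContIntertwiningMap.sub_apply, sub_eq_zero] at hf
  have := DFunLike.congr_fun hf 1
  exact this.symm

omit [CompactSpace G] in
theorem res_dd (X : TopRep.{0} k G) (m : ℕ) (y : X.resolutionX m) :
    (X.d (m + 1)).hom ((X.d m).hom y) = 0 := by
  have := congrArg (fun φ => φ.hom y) (X.d_comp_d m)
  exact this

theorem cocycle_eq {p : ℕ} [Fact p.Prime] (hG : ProP p G) (hG2 : H2Zero p G)
    (X : TopRep.{0} k G) (hX : Good X) (n : ℕ) (f : X.resolutionX (n + 3))
    (hf : (X.d (n + 3)).hom f = 0) (hinv : ∀ g, (X.resolutionX (n + 3)).ρ g f = f) :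
    ∃ b : X.resolutionX (n + 2), (∀ g, (X.resolutionX (n + 2)).ρ g b = b) ∧
      (X.d (n + 2)).hom b = f := by
  have h1 := res_exact X (n + 2) f hf
  generalize (show C(G, X.resolutionX (n + 2)) from f) 1 = b at h1
  obtain ⟨c, hc, h2, h3⟩ := lift_rep hG hG2 (hX.res (n + 1)) (hX.res (n + 2)) (X.d (n + 1)) b (by
    intro g
    refine ⟨_, res_exact X (n + 1) _ ?_⟩
    rw [map_sub, TopRep.hom_comm_apply, h1, hinv, sub_self])
  obtain ⟨y, hy⟩ := h1_coind (X.resolutionX n) c hc h3
  refine ⟨b - (X.d (n + 1)).hom y, fun g => ?_, ?_⟩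
  · have h4 := h2 g
    have h5 : c g = (X.resolutionX (n + 1)).ρ g y - y := hy g
    rw [h5, map_sub, TopRep.hom_comm_apply] at h4
    rw [map_sub, sub_eq_sub_iff_sub_eq_sub, h4]
  · rw [map_sub, res_dd, sub_zero, h1]

theorem isZero_of_exact {R : Type} [Ring R] [TopologicalSpace R]
    (S : ShortComplex (TopModuleCat.{0} R))
    (h : ∀ x : S.X₂, S.g.hom x = 0 → ∃ y : S.X₁, S.f.hom y = x) : S.Exact := by
  rw [ShortComplex.exact_iff_epi_toCycles]
  apply ConcreteCategory.epi_of_surjective
  intro z
  have h1 : S.g.hom (S.iCycles.hom z) = 0 := by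
    have := congrArg (fun φ => φ.hom z) S.iCycles_g
    exact this
  obtain ⟨y, hy⟩ := h _ h1
  refine ⟨y, ?_⟩
  have hinj : Function.Injective S.iCycles.hom := by
    have : Mono ((forget₂ (TopModuleCat.{0} R) (ModuleCat.{0} R)).map S.iCycles) := inferInstance
    exact (ModuleCat.mono_iff_injective _).1 this
  apply hinj
  have := congrArg (fun φ => φ.hom y) S.toCycles_i
  exact this.trans hy

theorem cohomology_isZero {p : ℕ} [Fact p.Prime] (hG : ProP p G) (hG2 : H2Zero p G)
    (X : TopRep.{0} k G) (hX : Good X) (n : ℕ) :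
    Limits.IsZero (continuousCohomology (n + 2) X) := by
  rw [← HomologicalComplex.exactAt_iff_isZero_homology,
    HomologicalComplex.exactAt_iff' _ (n + 1) (n + 2) (n + 3) (by simp) (by simp)]
  apply isZero_of_exact
  intro x hx
  have hx' : (X.d (n + 3)).hom x.1 = 0 := by
    have := TopRep.homogeneousCochains.d_apply X (n + 2) x
    have h2 := congrArg Subtype.val hx
    exact this.symm.trans h2
  obtain ⟨b, hb, hbf⟩ := cocycle_eq hG hG2 X hX n x.1 hx' x.2
  refine ⟨⟨b, hb⟩, Subtype.ext ?_⟩
  exact (TopRep.homogeneousCochains.d_apply X (n + 1) ⟨b, hb⟩).trans hbf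

end Pool.Agent.P.MP_8f38d0_ag
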