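import Mathlib

set_option autoImplicit false

namespace Pool.Agent.P.MP_8f38d0_ag.Cub

open Module

section Tensor

variable {R : Type*} [CommRing R] {ι : Type*} [Fintype ι]

/-- The trilinear map with coefficient tensor `c`. -/
noncomputable def Tm (c : ι → ι → ι → R) :
    (ι → R) →ₗ[R] (ι → R) →ₗ[R] (ι → R) →ₗ[R] R :=
  ∑ i, ∑ j, ∑ l, (LinearMap.proj i : (ι → R) →ₗ[R] R).smulRight
    ((LinearMap.proj j : (ι → R) →ₗ[R] R).smulRight
      (c i j l • (LinearMap.proj l : (ι → R) →ₗ[R] R)))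

theorem Tm_apply (c : ι → ι → ι → R) (x y z : ι → R) :
    Tm c x y z = ∑ i, ∑ j, ∑ l, c i j l * x i * y j * z l := by
  simp only [Tm, LinearMap.sum_apply, LinearMap.smulRight_apply, LinearMap.smul_apply,
    LinearMap.proj_apply, smul_eq_mul]
  refine Finset.sum_congr rfl fun i _ => Finset.sum_congr rfl fun j _ =>
    Finset.sum_congr rfl fun l _ => ?_
  ring

theorem Tm_map {S : Type*} [CommRing S] (φ : R →+* S) (c : ι → ι → ι → R) (x y z : ι → R) :
    φ (Tm c x y z) = Tm (fun i j l => φ (c i j l)) (fun i => φ (x i)) (fun i => φ (y i))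
      (fun i => φ (z i)) := by
  simp only [Tm_apply, map_sum, map_mul]

theorem exists_tensor (F : MvPolynomial ι R) (hF : F.IsHomogeneous 3) :
    ∃ c : ι → ι → ι → R, ∀ x : ι → R, MvPolynomial.eval x F = Tm c x x x := by
  classical
  have h1 : F ∈ MvPolynomial.homogeneousSubmodule ι R 3 := hF
  rw [← MvPolynomial.homogeneousSubmodule_one_pow, MvPolynomial.homogeneousSubmodule_one_eq_span_X,
    pow_three', Submodule.span_mul_span, Submodule.span_mul_span] at h1
  clear hF
  induction h1 using Submodule.span_induction with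
  | mem G hG =>
    obtain ⟨_, ⟨_, ⟨i, rfl⟩, _, ⟨j, rfl⟩, rfl⟩, _, ⟨l, rfl⟩, rfl⟩ := hG
    refine ⟨fun a b d => if a = i ∧ b = j ∧ d = l then 1 else 0, fun x => ?_⟩
    rw [Tm_apply, Finset.sum_eq_single i, Finset.sum_eq_single j, Finset.sum_eq_single l] <;>
      simp +contextual
  | zero => exact ⟨0, fun x => by simp [Tm_apply]⟩
  | add G H _ _ hG hH =>
    obtain ⟨c, hc⟩ := hG
    obtain ⟨d, hd⟩ := hH
    refine ⟨c + d, fun x => ?_⟩
    rw [map_add, hc, hd]
    simp only [Tm_apply, Pi.add_apply, add_mul, Finset.sum_add_distrib]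
  | smul r G _ hG =>
    obtain ⟨c, hc⟩ := hG
    refine ⟨r • c, fun x => ?_⟩
    rw [MvPolynomial.smul_eval, hc]
    simp only [Tm_apply, Pi.smul_apply, smul_eq_mul, Finset.mul_sum, mul_assoc]

end Tensor

section Linear

variable {E : Type*} [Field E] {V : Type*} [AddCommGroup V] [Module E V] [FiniteDimensional E V]

theorem cut {κ : Type*} [Fintype κ] (W : Submodule E V) (φ : κ → V →ₗ[E] E) :
    ∃ W' : Submodule E V, W' ≤ W ∧ (∀ w ∈ W', ∀ a, φ a w = 0) ∧
      finrank E W ≤ finrank E W' + Fintype.card κ := by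
  let g : W →ₗ[E] (κ → E) := (LinearMap.pi φ).domRestrict W
  refine ⟨(LinearMap.ker g).map W.subtype, Submodule.map_subtype_le _ _, ?_, ?_⟩
  · rintro _ ⟨w, hw, rfl⟩ a
    exact congrFun hw a
  · have h1 := g.finrank_range_add_finrank_ker
    have h2 : finrank E (LinearMap.range g) ≤ Fintype.card κ := by
      simpa using Submodule.finrank_le (LinearMap.range g)
    rw [Submodule.finrank_map_subtype_eq]
    omega

omit [FiniteDimensional E V] in
theorem exists_fun_one {y : V} (hy : y ≠ 0) : ∃ l : V →ₗ[E] E, l y = 1 :=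
  Module.Projective.exists_dual_eq_one E hy

/-- Systems of quadratic forms over a quadratically closed field. -/
theorem quad_system
    (hE : ∀ a b c : E, ∃ s t : E, (s ≠ 0 ∨ t ≠ 0) ∧ a * s ^ 2 + b * s * t + c * t ^ 2 = 0)
    (j : ℕ) : ∀ (B : Fin j → V →ₗ[E] V →ₗ[E] E) (W : Submodule E V),
      j * (j + 1) < 2 * finrank E W → ∃ y ∈ W, y ≠ 0 ∧ ∀ a, B a y y = 0 := by
  induction j with
  | zero =>
    intro B W h
    have : W ≠ ⊥ := by
      rintro rfl
      simp at h
    obtain ⟨y, hy, hy0⟩ := Submodule.exists_mem_ne_zero_of_ne_bot this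
    exact ⟨y, hy, hy0, fun a => a.elim0⟩
  | succ j ih =>
    intro B W h
    obtain ⟨y, hyW, hy0, hy⟩ := ih (fun a => B a.succ) W (by nlinarith)
    obtain ⟨l, hl⟩ := exists_fun_one (E := E) hy0
    obtain ⟨W', hW', hk, hd⟩ := cut W
      (fun o : Option (Fin j) => o.elim l fun a => B a.succ y + (B a.succ).flip y)
    simp only [Fintype.card_option, Fintype.card_fin] at hd
    obtain ⟨z, hzW, hz0, hz⟩ := ih (fun a => B a.succ) W' (by nlinarith)
    obtain ⟨s, t, hst, hq⟩ := hE (B 0 y y) (B 0 y z + B 0 z y) (B 0 z z)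
    have hlz : l z = 0 := hk z hzW none
    refine ⟨s • y + t • z, W.add_mem (W.smul_mem _ hyW) (W.smul_mem _ (hW' hzW)), ?_, ?_⟩
    · intro h0
      have hs : s = 0 := by simpa [hl, hlz] using congrArg l h0
      subst hs
      simp only [zero_smul, zero_add, smul_eq_zero, hz0, or_false] at h0
      simp [h0] at hst
    · intro a
      refine Fin.cases ?_ (fun a => ?_) a
      · simp only [map_add, map_smul, LinearMap.add_apply, LinearMap.smul_apply, smul_eq_mul]
        linear_combination hq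
      · have h1 : B a.succ y z + B a.succ z y = 0 := hk z hzW (some a)
        have h2 := hy a
        have h3 := hz a
        simp only [map_add, map_smul, LinearMap.add_apply, LinearMap.smul_apply, smul_eq_mul]
        linear_combination s * t * h1 + s ^ 2 * h2 + t ^ 2 * h3

/-- Diagonalisation of a cubic form on a subspace. -/
theorem diag_aux
    (hE : ∀ a b c : E, ∃ s t : E, (s ≠ 0 ∨ t ≠ 0) ∧ a * s ^ 2 + b * s * t + c * t ^ 2 = 0)
    (T : V →ₗ[E] V →ₗ[E] V →ₗ[E] E) (m : ℕ) (hm : m ^ 2 ≤ finrank E V) :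
    ∃ (x : Fin m → V) (W : Submodule E V),
      (∀ s : Fin m → E, ∑ a, s a • x a = 0 → s = 0) ∧
      (∀ s : Fin m → E, T (∑ a, s a • x a) (∑ a, s a • x a) (∑ a, s a • x a) =
        ∑ a, s a ^ 3 * T (x a) (x a) (x a)) ∧
      (∀ s : Fin m → E, ∑ a, s a • x a ∈ W → ∑ a, s a • x a = 0) ∧
      (∀ w ∈ W, ∀ s : Fin m → E, T (∑ a, s a • x a) (∑ a, s a • x a) w +
        T (∑ a, s a • x a) w (∑ a, s a • x a) + T w (∑ a, s a • x a) (∑ a, s a • x a) = 0) ∧
      2 * finrank E V ≤ 2 * finrank E W + m * (m + 3) := by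
  induction m with
  | zero =>
    refine ⟨Fin.elim0, ⊤, fun s _ => Subsingleton.elim _ _, ?_, ?_, ?_, ?_⟩ <;> simp
  | succ m ih =>
    obtain ⟨x, W, h1, h2, h3, h4, h5⟩ := ih (le_trans (Nat.pow_le_pow_left (Nat.le_succ m) 2) hm)
    obtain ⟨y, hyW, hy0, hy⟩ := quad_system hE m
      (fun a => T (x a) + T.flip (x a) + (LinearMap.lflip.toLinearMap ∘ₗ T).flip (x a)) W (by nlinarith)
    have hy' : ∀ a, T (x a) y y + T y (x a) y + T y y (x a) = 0 := fun a => by
      simpa using hy a
    obtain ⟨l, hl⟩ := exists_fun_one (E := E) hy0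
    let L : V → V → V →ₗ[E] E := fun u v =>
      T u v + (T u).flip v + ((LinearMap.lflip.toLinearMap ∘ₗ T).flip v).flip u
    have hL : ∀ u v w, L u v w = T u v w + T u w v + T w u v := fun u v w => by
      simp [L]
    obtain ⟨W', hW', hk, hd⟩ := cut W
      (fun o : Option (Option (Fin m)) => o.elim l fun o' => o'.elim (L y y)
        fun a => L (x a) y + L y (x a))
    simp only [Fintype.card_option, Fintype.card_fin] at hd
    have hsum : ∀ s : Fin (m + 1) → E, ∑ a, s a • (Fin.cons y x : Fin (m + 1) → V) a =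
        s 0 • y + ∑ a, s a.succ • x a := fun s => by
      simp [Fin.sum_univ_succ]
    have hB : ∀ s : Fin m → E, T (∑ a, s a • x a) y y + T y (∑ a, s a • x a) y +
        T y y (∑ a, s a • x a) = 0 := fun s => by
      simp only [map_sum, map_smul, LinearMap.sum_apply, LinearMap.smul_apply, smul_eq_mul,
        ← Finset.sum_add_distrib, ← mul_add, hy', mul_zero, Finset.sum_const_zero]
    refine ⟨Fin.cons y x, W', ?_, ?_, ?_, ?_, by nlinarith⟩
    · intro s hs
      rw [hsum] at hs
      have hu : ∑ a, s a.succ • x a = -(s 0 • y) := eq_neg_of_add_eq_zero_right hs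
      have hu0 := h3 (fun a => s a.succ) (hu ▸ W.neg_mem (W.smul_mem _ hyW))
      have hs1 := h1 _ hu0
      rw [hu0, add_zero, smul_eq_zero] at hs
      funext a
      refine Fin.cases ?_ (fun a => ?_) a
      · exact hs.resolve_right hy0
      · exact congrFun hs1 a
    · intro s
      rw [hsum, Fin.sum_univ_succ]
      simp only [Fin.cons_zero, Fin.cons_succ]
      rw [← h2]
      have e1 := h4 y hyW fun a => s a.succ
      have e2 := hB fun a => s a.succ
      generalize ∑ a, s a.succ • x a = u at e1 e2 ⊢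
      simp only [map_add, map_smul, LinearMap.add_apply, LinearMap.smul_apply, smul_eq_mul]
      linear_combination s 0 * e1 + s 0 ^ 2 * e2
    · intro s hs
      rw [hsum] at hs ⊢
      have hu : ∑ a, s a.succ • x a ∈ W := by
        have := W.sub_mem (hW' hs) (W.smul_mem (s 0) hyW)
        simpa using this
      have hu0 := h3 _ hu
      rw [hu0, add_zero] at hs ⊢
      have : l (s 0 • y) = 0 := hk _ hs none
      simp only [map_smul, hl, smul_eq_mul, mul_one] at this
      simp [this]
    · intro w hw s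
      rw [hsum]
      have e1 := h4 w (hW' hw) fun a => s a.succ
      have e2 : T y y w + T y w y + T w y y = 0 := by
        rw [← hL]; exact hk w hw (some none)
      have e3 : ∀ a, T (x a) y w + T (x a) w y + T w (x a) y +
          (T y (x a) w + T y w (x a) + T w y (x a)) = 0 := fun a => by
        rw [← hL, ← hL]; exact hk w hw (some (some a))
      have e4 : T (∑ a, s a.succ • x a) y w + T (∑ a, s a.succ • x a) w y +
          T w (∑ a, s a.succ • x a) y + (T y (∑ a, s a.succ • x a) w +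
          T y w (∑ a, s a.succ • x a) + T w y (∑ a, s a.succ • x a)) = 0 := by
        simp only [map_sum, map_smul, LinearMap.sum_apply, LinearMap.smul_apply, smul_eq_mul,
          ← Finset.sum_add_distrib, ← mul_add, e3, mul_zero, Finset.sum_const_zero]
      generalize ∑ a, s a.succ • x a = u at e1 e4 ⊢
      simp only [map_add, map_smul, LinearMap.add_apply, LinearMap.smul_apply, smul_eq_mul]
      linear_combination e1 + s 0 ^ 2 * e2 + s 0 * e4

theorem diag
    (hE : ∀ a b c : E, ∃ s t : E, (s ≠ 0 ∨ t ≠ 0) ∧ a * s ^ 2 + b * s * t + c * t ^ 2 = 0)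
    (T : V →ₗ[E] V →ₗ[E] V →ₗ[E] E) (m : ℕ) (hm : m ^ 2 ≤ finrank E V)
    (hd : ∀ a : Fin m → E, ∃ s : Fin m → E, s ≠ 0 ∧ ∑ i, s i ^ 3 * a i = 0) :
    ∃ v : V, v ≠ 0 ∧ T v v v = 0 := by
  obtain ⟨x, W, h1, h2, -⟩ := diag_aux hE T m hm
  obtain ⟨s, hs, hs'⟩ := hd fun a => T (x a) (x a) (x a)
  exact ⟨∑ a, s a • x a, fun h => hs (h1 s h), by rw [h2, hs']⟩

end Linear

end Pool.Agent.P.MP_8f38d0_ag.Cub
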