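import Mathlib
import Pool.Agent.P.MP_8f38d0_ag.Cub

set_option autoImplicit false

namespace Pool.Agent.P.MP_8f38d0_ag.Cub

open Module

variable {k Ω : Type*} [Field k] [Field Ω] [Algebra k Ω]

theorem not_mem_coeff {K : IntermediateField k Ω} {α u v : Ω} (hα : α ∉ K) (hu : u ∈ K)
    (hv : v ∈ K) (h : u + v * α = 0) : u = 0 ∧ v = 0 := by
  by_cases h0 : v = 0
  · simpa [h0] using h
  · refine (hα ?_).elim
    have : α = -u / v := by
      field_simp
      linear_combination h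
    rw [this]
    exact K.div_mem (K.neg_mem hu) hv

/-- The field generated over `K` by a root of a monic quadratic polynomial. -/
def quadExt (K : IntermediateField k Ω) (α a b : Ω) (ha : a ∈ K) (hb : b ∈ K)
    (h : α ^ 2 + a * α + b = 0) : IntermediateField k Ω where
  carrier := {z | ∃ u ∈ K, ∃ v ∈ K, z = u + v * α}
  mul_mem' := by
    rintro _ _ ⟨u, hu, v, hv, rfl⟩ ⟨u', hu', v', hv', rfl⟩
    refine ⟨u * u' - v * v' * b, K.sub_mem (K.mul_mem hu hu') (K.mul_mem (K.mul_mem hv hv') hb),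
      u * v' + v * u' - v * v' * a, K.sub_mem (K.add_mem (K.mul_mem hu hv') (K.mul_mem hv hu'))
        (K.mul_mem (K.mul_mem hv hv') ha), ?_⟩
    linear_combination v * v' * h
  add_mem' := by
    rintro _ _ ⟨u, hu, v, hv, rfl⟩ ⟨u', hu', v', hv', rfl⟩
    exact ⟨u + u', K.add_mem hu hu', v + v', K.add_mem hv hv', by ring⟩
  algebraMap_mem' r := ⟨_, K.algebraMap_mem r, 0, K.zero_mem, by simp⟩
  inv_mem' := by
    rintro _ ⟨u, hu, v, hv, rfl⟩
    by_cases hα : α ∈ K
    · exact ⟨_, K.inv_mem (K.add_mem hu (K.mul_mem hv hα)), 0, K.zero_mem, by simp⟩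
    by_cases h0 : u + v * α = 0
    · exact ⟨0, K.zero_mem, 0, K.zero_mem, by simp [h0]⟩
    have hN : u ^ 2 - a * u * v + b * v ^ 2 ∈ K :=
      K.add_mem (K.sub_mem (pow_mem hu 2) (K.mul_mem (K.mul_mem ha hu) hv))
        (K.mul_mem hb (pow_mem hv 2))
    have e : (u + v * α) * ((u - a * v) + (-v) * α) = u ^ 2 - a * u * v + b * v ^ 2 := by
      linear_combination (-v ^ 2) * h
    have h1 : (u - a * v) + (-v) * α ≠ 0 := fun h1 => by
      obtain ⟨h2, h3⟩ := not_mem_coeff hα (K.sub_mem hu (K.mul_mem ha hv)) (K.neg_mem hv) h1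
      rw [neg_eq_zero] at h3
      simp only [h3, mul_zero, sub_zero] at h2
      simp [h2, h3] at h0
    have h2 : u ^ 2 - a * u * v + b * v ^ 2 ≠ 0 := e ▸ mul_ne_zero h0 h1
    refine ⟨(u - a * v) / (u ^ 2 - a * u * v + b * v ^ 2),
      K.div_mem (K.sub_mem hu (K.mul_mem ha hv)) hN,
      -v / (u ^ 2 - a * u * v + b * v ^ 2), K.div_mem (K.neg_mem hv) hN, ?_⟩
    rw [inv_eq_iff_eq_inv, eq_comm, inv_eq_iff_eq_inv, eq_comm]
    apply inv_eq_of_mul_eq_one_right
    rw [div_mul_eq_mul_div, ← add_div, ← mul_div_assoc, e, div_self h2]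

theorem mem_quadExt {K : IntermediateField k Ω} {α a b : Ω} {ha : a ∈ K} {hb : b ∈ K}
    {h : α ^ 2 + a * α + b = 0} {z : Ω} :
    z ∈ quadExt K α a b ha hb h ↔ ∃ u ∈ K, ∃ v ∈ K, z = u + v * α := Iff.rfl

theorem le_quadExt (K : IntermediateField k Ω) (α a b : Ω) (ha : a ∈ K) (hb : b ∈ K)
    (h : α ^ 2 + a * α + b = 0) : K ≤ quadExt K α a b ha hb h :=
  fun z hz => ⟨z, hz, 0, K.zero_mem, by simp⟩

/-- Fields reached from the base by finitely many quadratic steps. -/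
inductive Tower : IntermediateField k Ω → Prop
  | bot : Tower ⊥
  | step (K : IntermediateField k Ω) (α a b : Ω) (ha : a ∈ K) (hb : b ∈ K)
      (h : α ^ 2 + a * α + b = 0) : Tower K → Tower (quadExt K α a b ha hb h)

theorem Tower.directed {K L : IntermediateField k Ω} (hK : Tower K) (hL : Tower L) :
    ∃ M, Tower M ∧ K ≤ M ∧ L ≤ M := by
  induction hL with
  | bot => exact ⟨K, hK, le_rfl, bot_le⟩
  | step L α a b ha hb h _ ih =>
    obtain ⟨M, hM, h1, h2⟩ := ih
    refine ⟨_, Tower.step M α a b (h2 ha) (h2 hb) h hM, h1.trans (le_quadExt _ _ _ _ _ _ _), ?_⟩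
    rintro _ ⟨u, hu, v, hv, rfl⟩
    exact ⟨u, h2 hu, v, h2 hv, rfl⟩

theorem Tower.finrank {K : IntermediateField k Ω} (hK : Tower K) :
    FiniteDimensional k K ∧ ∃ j, finrank k K = 2 ^ j := by
  induction hK with
  | bot => exact ⟨inferInstance, 0, by simp⟩
  | step K α a b ha hb h _ ih =>
    obtain ⟨_, j, hj⟩ := ih
    by_cases hα : α ∈ K
    · have : quadExt K α a b ha hb h = K := by
        refine le_antisymm ?_ (le_quadExt _ _ _ _ _ _ _)
        rintro _ ⟨u, hu, v, hv, rfl⟩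
        exact K.add_mem hu (K.mul_mem hv hα)
      rw [this]
      exact ⟨inferInstance, j, hj⟩
    let g : (K × K) →ₗ[k] quadExt K α a b ha hb h :=
      { toFun := fun p => ⟨p.1 + p.2 * α, p.1, p.1.2, p.2, p.2.2, rfl⟩
        map_add' := fun p q => Subtype.ext (by simp; ring)
        map_smul' := fun r p => Subtype.ext (by simp [Algebra.smul_def]; ring) }
    have hg : Function.Bijective g := by
      refine ⟨(injective_iff_map_eq_zero g).2 fun p hp => ?_, ?_⟩
      · obtain ⟨h1, h2⟩ := not_mem_coeff hα p.1.2 p.2.2 (congrArg Subtype.val hp)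
        exact Prod.ext (Subtype.ext h1) (Subtype.ext h2)
      · rintro ⟨_, u, hu, v, hv, rfl⟩
        exact ⟨(⟨u, hu⟩, ⟨v, hv⟩), rfl⟩
    let e := LinearEquiv.ofBijective g hg
    refine ⟨e.finiteDimensional, j + 1, ?_⟩
    rw [← e.finrank_eq, finrank_prod, hj]
    ring

/-- The union of all quadratic towers. -/
def closure2 (k Ω : Type*) [Field k] [Field Ω] [Algebra k Ω] : IntermediateField k Ω where
  carrier := {z | ∃ K : IntermediateField k Ω, Tower K ∧ z ∈ K}
  mul_mem' := by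
    rintro x y ⟨K, hK, hx⟩ ⟨L, hL, hy⟩
    obtain ⟨M, hM, h1, h2⟩ := hK.directed hL
    exact ⟨M, hM, M.mul_mem (h1 hx) (h2 hy)⟩
  add_mem' := by
    rintro x y ⟨K, hK, hx⟩ ⟨L, hL, hy⟩
    obtain ⟨M, hM, h1, h2⟩ := hK.directed hL
    exact ⟨M, hM, M.add_mem (h1 hx) (h2 hy)⟩
  algebraMap_mem' r := ⟨⊥, Tower.bot, IntermediateField.algebraMap_mem _ r⟩
  inv_mem' := by
    rintro x ⟨K, hK, hx⟩
    exact ⟨K, hK, K.inv_mem hx⟩

theorem exists_tower {κ : Type*} [Finite κ] (z : κ → Ω) (hz : ∀ i, z i ∈ closure2 k Ω) :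
    ∃ K : IntermediateField k Ω, Tower K ∧ ∀ i, z i ∈ K := by
  classical
  have := Fintype.ofFinite κ
  suffices h : ∀ s : Finset κ, ∃ K : IntermediateField k Ω, Tower K ∧ ∀ i ∈ s, z i ∈ K by
    obtain ⟨K, hK, h⟩ := h Finset.univ
    exact ⟨K, hK, fun i => h i (Finset.mem_univ i)⟩
  intro s
  induction s using Finset.induction_on with
  | empty => exact ⟨⊥, Tower.bot, by simp⟩
  | insert i s _ ih =>
    obtain ⟨K, hK, h⟩ := ih
    obtain ⟨L, hL, hi⟩ := hz i
    obtain ⟨M, hM, h1, h2⟩ := hK.directed hL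
    refine ⟨M, hM, fun j hj => ?_⟩
    rcases Finset.mem_insert.1 hj with rfl | hj
    · exact h2 hi
    · exact h1 (h j hj)

theorem closure2_root (hΩ : ∀ a b : Ω, ∃ α, α ^ 2 + a * α + b = 0) (a b : closure2 k Ω) :
    ∃ α : closure2 k Ω, α ^ 2 + a * α + b = 0 := by
  obtain ⟨K, hK, h⟩ := exists_tower (k := k) ![(a : Ω), b] (by simp [Fin.forall_fin_two])
  obtain ⟨α, hα⟩ := hΩ a b
  refine ⟨⟨α, _, Tower.step K α a b (h 0) (h 1) hα hK, 0, K.zero_mem, 1, K.one_mem, by simp⟩,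
    Subtype.ext ?_⟩
  simpa using hα

theorem closure2_quad (hΩ : ∀ a b : Ω, ∃ α, α ^ 2 + a * α + b = 0) (a b c : closure2 k Ω) :
    ∃ s t : closure2 k Ω, (s ≠ 0 ∨ t ≠ 0) ∧ a * s ^ 2 + b * s * t + c * t ^ 2 = 0 := by
  by_cases ha : a = 0
  · exact ⟨1, 0, Or.inl one_ne_zero, by simp [ha]⟩
  obtain ⟨α, hα⟩ := closure2_root hΩ (b / a) (c / a)
  refine ⟨α, 1, Or.inr one_ne_zero, ?_⟩
  have : a * (α ^ 2 + b / a * α + c / a) = a * α ^ 2 + b * α * 1 + c * 1 ^ 2 := by
    field_simp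
  rw [← this, hα, mul_zero]

variable {ι : Type*} [Fintype ι]

/-- The cubic form with tensor `c` has no nonzero zero with coordinates in `K`. -/
def Aniso (c : ι → ι → ι → Ω) (K : IntermediateField k Ω) : Prop :=
  ∀ x : ι → Ω, (∀ i, x i ∈ K) → Tm c x x x = 0 → x = 0

theorem Tm_mem {c : ι → ι → ι → Ω} {K : IntermediateField k Ω} (hc : ∀ i j l, c i j l ∈ K)
    {x y z : ι → Ω} (hx : ∀ i, x i ∈ K) (hy : ∀ i, y i ∈ K) (hz : ∀ i, z i ∈ K) :
    Tm c x y z ∈ K := by
  rw [Tm_apply]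
  exact sum_mem fun i _ => sum_mem fun j _ => sum_mem fun l _ =>
    K.mul_mem (K.mul_mem (K.mul_mem (hc i j l) (hx i)) (hy j)) (hz l)

/-- Quadratic descent for cubic forms. -/
theorem Aniso.quadExt {c : ι → ι → ι → Ω} {K : IntermediateField k Ω} (hc : ∀ i j l, c i j l ∈ K)
    (hK : Aniso c K) (α a b : Ω) (ha : a ∈ K) (hb : b ∈ K) (h : α ^ 2 + a * α + b = 0) :
    Aniso c (quadExt K α a b ha hb h) := by
  intro x hx h0
  choose u hu v hv huv using hx
  by_cases hα : α ∈ K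
  · exact hK x (fun i => huv i ▸ K.add_mem (hu i) (K.mul_mem (hv i) hα)) h0
  by_cases hv0 : v = 0
  · exact hK x (fun i => by rw [huv i, hv0]; simpa using hu i) h0
  have hx : x = u + α • v := funext fun i => by rw [huv i]; simp [mul_comm]
  have hfv : Tm c v v v ≠ 0 := fun e => hv0 (hK v hv e)
  have hexp : ∀ t : Ω, Tm c (u + t • v) (u + t • v) (u + t • v) =
      Tm c u u u + (Tm c u u v + Tm c u v u + Tm c v u u) * t +
        (Tm c u v v + Tm c v u v + Tm c v v u) * t ^ 2 + Tm c v v v * t ^ 3 := fun t => by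
    simp only [map_add, map_smul, LinearMap.add_apply, LinearMap.smul_apply, smul_eq_mul]
    ring
  have m0 := Tm_mem hc hu hu hu
  have m1 := K.add_mem (K.add_mem (Tm_mem hc hu hu hv) (Tm_mem hc hu hv hu)) (Tm_mem hc hv hu hu)
  have m2 := K.add_mem (K.add_mem (Tm_mem hc hu hv hv) (Tm_mem hc hv hu hv)) (Tm_mem hc hv hv hu)
  have m3 := Tm_mem hc hv hv hv
  rw [hx, hexp] at h0
  have h0' : Tm c x x x = 0 := by rw [hx, hexp, h0]
  generalize Tm c u u u = f0 at *
  generalize Tm c u u v + Tm c u v u + Tm c v u u = A at *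
  generalize Tm c u v v + Tm c v u v + Tm c v v u = B at *
  generalize hf3 : Tm c v v v = f3 at *
  obtain ⟨hP, hQ⟩ := not_mem_coeff (u := f0 - b * B + a * b * f3)
    (v := A - a * B + (a ^ 2 - b) * f3) hα
    (K.add_mem (K.sub_mem m0 (K.mul_mem hb m2)) (K.mul_mem (K.mul_mem ha hb) m3))
    (K.add_mem (K.sub_mem m1 (K.mul_mem ha m2)) (K.mul_mem (K.sub_mem (pow_mem ha 2) hb) m3))
    (by linear_combination h0 - (f3 * α + (B - a * f3)) * h)
  obtain ⟨t, ht, htK⟩ : ∃ t, f3 * t + (B - a * f3) = 0 ∧ t ∈ K :=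
    ⟨-(B - a * f3) / f3, by field_simp; ring,
      K.div_mem (K.neg_mem (K.sub_mem m2 (K.mul_mem ha m3))) m3⟩
  have hw : u + t • v = 0 := hK _ (fun i => K.add_mem (hu i) (K.mul_mem htK (hv i))) (by
    rw [hexp]
    linear_combination hP + t * hQ + (t ^ 2 + a * t + b) * ht)
  have hx' : x = (α - t) • v := by
    rw [hx, sub_smul, eq_neg_of_add_eq_zero_left hw]
    abel
  rw [hx'] at h0'
  simp only [map_smul, LinearMap.smul_apply, smul_eq_mul, hf3, mul_eq_zero, hfv, or_false,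
    or_self, sub_eq_zero] at h0'
  exact (hα (h0' ▸ htK)).elim

theorem Aniso.tower {c : ι → ι → ι → Ω} (hc : ∀ i j l, c i j l ∈ (⊥ : IntermediateField k Ω))
    (h0 : Aniso c (⊥ : IntermediateField k Ω)) {K : IntermediateField k Ω} (hK : Tower K) :
    Aniso c K := by
  induction hK with
  | bot => exact h0
  | step K α a b ha hb h _ ih =>
    exact ih.quadExt (fun i j l => (bot_le : ⊥ ≤ K) (hc i j l)) α a b ha hb h

/-- Reduction of cubic forms to diagonal forms over quadratic towers. -/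
theorem reduce (hΩ : ∀ a b : Ω, ∃ α, α ^ 2 + a * α + b = 0) (m : ℕ) (hm : m ^ 2 ≤ Fintype.card ι)
    (hd : ∀ K : IntermediateField k Ω, Tower K → ∀ a : Fin m → Ω, (∀ i, a i ∈ K) →
      ∃ s : Fin m → Ω, (∀ i, s i ∈ closure2 k Ω) ∧ s ≠ 0 ∧ ∑ i, s i ^ 3 * a i = 0)
    (F : MvPolynomial ι k) (hF : F.IsHomogeneous 3) :
    ∃ x : ι → k, x ≠ 0 ∧ MvPolynomial.eval x F = 0 := by
  obtain ⟨c, hc⟩ := exists_tensor F hF
  by_contra hn
  have hb : Aniso (fun i j l => algebraMap k Ω (c i j l)) (⊥ : IntermediateField k Ω) := by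
    intro x hx h0
    choose y hy using fun i => IntermediateField.mem_bot.1 (hx i)
    obtain rfl : x = fun i => algebraMap k Ω (y i) := funext fun i => (hy i).symm
    rw [← Tm_map, map_eq_zero, ← hc] at h0
    by_contra hne
    refine hn ⟨y, ?_, h0⟩
    rintro rfl
    exact hne (funext fun i => by simp)
  obtain ⟨v, hv, hv0⟩ := diag (E := closure2 k Ω) (V := ι → closure2 k Ω) (closure2_quad hΩ)
    (Tm fun i j l => algebraMap k (closure2 k Ω) (c i j l)) m (by simpa using hm) fun a => by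
      obtain ⟨K, hK, ha⟩ := exists_tower (fun i => (a i : Ω)) fun i => (a i).2
      obtain ⟨s, hs, hs0, hs1⟩ := hd K hK _ ha
      refine ⟨fun i => ⟨s i, hs i⟩, fun e => hs0 (funext fun i => ?_), Subtype.ext ?_⟩
      · exact congrArg Subtype.val (congrFun e i)
      · simpa using hs1
  obtain ⟨K, hK, hvK⟩ := exists_tower (fun i => (v i : Ω)) fun i => (v i).2
  have := hb.tower (fun i j l => IntermediateField.algebraMap_mem _ _) hK _ hvK (by
    have e := congrArg (algebraMap (closure2 k Ω) Ω) hv0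
    rw [Tm_map, map_zero] at e
    exact e)
  exact hv (funext fun i => Subtype.ext (congrFun this i))

end Pool.Agent.P.MP_8f38d0_ag.Cub
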