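import Mathlib
import Pool.Agent.P.MP_8f38d0_ag.Tower

set_option autoImplicit false

namespace Pool.Agent.P.MP_8f38d0_ag.Cub

open Module

/-- In a finite extension `K` of `k`, any `[k : k^3] + 1` elements are dependent over `K^3`. -/
theorem frob_dep {k K : Type*} [Field k] [CharP k 3] [Field K] [Algebra k K]
    [FiniteDimensional k K] [FiniteDimensional (frobenius k 3).fieldRange k] (m : ℕ)
    (hm : finrank (frobenius k 3).fieldRange k < m) (a : Fin m → K) :
    ∃ s : Fin m → K, s ≠ 0 ∧ ∑ i, s i ^ 3 * a i = 0 := by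
  have : CharP K 3 := charP_of_injective_algebraMap (algebraMap k K).injective 3
  let b := Module.finBasis k K
  have : FiniteDimensional (frobenius k 3).fieldRange K :=
    Module.Finite.trans k K
  have hn : 0 < finrank k K := finrank_pos
  have hdep : ¬ LinearIndependent (frobenius k 3).fieldRange
      fun p : Fin m × Fin (finrank k K) => b p.2 ^ 3 * a p.1 := fun h => by
    have h1 := h.fintype_card_le_finrank
    rw [← finrank_mul_finrank (frobenius k 3).fieldRange k K] at h1
    simp only [Fintype.card_prod, Fintype.card_fin] at h1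
    exact (Nat.le_of_mul_le_mul_right h1 hn).not_gt hm
  obtain ⟨g, hg, p, hp⟩ := Fintype.not_linearIndependent_iff.1 hdep
  choose r hr using fun p => (g p).2
  refine ⟨fun i => ∑ j, r (i, j) • b j, fun h => hp ?_, ?_⟩
  · have h1 := Fintype.linearIndependent_iff.1 b.linearIndependent _ (congrFun h p.1) p.2
    apply Subtype.ext
    rw [← hr p, show r p = 0 from h1]
    simp
  · rw [← hg, Fintype.sum_prod_type]
    refine Finset.sum_congr rfl fun i _ => ?_
    rw [sum_pow_char 3, Finset.sum_mul]
    refine Finset.sum_congr rfl fun j _ => ?_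
    rw [Subfield.smul_def, ← hr, Algebra.smul_def, Algebra.smul_def, frobenius_def, map_pow]
    ring

theorem charThree {k : Type*} [Field k] [CharP k 3]
    [FiniteDimensional (frobenius k 3).fieldRange k] {ι : Type*} [Fintype ι]
    (hN : (finrank (frobenius k 3).fieldRange k + 1) ^ 2 ≤ Fintype.card ι)
    (F : MvPolynomial ι k) (hF : F.IsHomogeneous 3) :
    ∃ x : ι → k, x ≠ 0 ∧ MvPolynomial.eval x F = 0 := by
  refine reduce (Ω := AlgebraicClosure k) (fun a b => ?_) _ hN (fun K hK a ha => ?_) F hF
  · have hd : (Polynomial.X ^ 2 + Polynomial.C a * Polynomial.X + Polynomial.C b :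
        Polynomial (AlgebraicClosure k)).degree = 2 := by
      compute_degree!
    obtain ⟨α, hα⟩ := IsAlgClosed.exists_root _ (hd.trans_ne two_ne_zero)
    exact ⟨α, by simpa using hα⟩
  · have := hK.finrank.1
    obtain ⟨s, hs, hs1⟩ := frob_dep (k := k) (K := K) _ (Nat.lt_succ_self _) fun i => ⟨a i, ha i⟩
    refine ⟨fun i => s i, fun i => ⟨K, hK, (s i).2⟩, fun e => hs (funext fun i => ?_), ?_⟩
    · exact Subtype.ext (congrFun e i)
    · simpa using congrArg Subtype.val hs1

end Pool.Agent.P.MP_8f38d0_ag.Cub
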