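import Mathlib
import Pool.Agent.P.MP_8f38d0_ag.Avg

set_option autoImplicit false

namespace Pool.Agent.P.MP_8f38d0_ag

open Topology Filter

variable {k Ω : Type} [Field k] [Field Ω] [Algebra k Ω] [IsGalois k Ω]

theorem proP_gal {p : ℕ}
    (h : ∀ E : IntermediateField k Ω, FiniteDimensional k E → Normal k E →
      ∃ a, Module.finrank k E = p ^ a) : ProP p (Ω ≃ₐ[k] Ω) := by
  intro W hW
  obtain ⟨E, h1, h2, h3⟩ := (krullTopology_mem_nhds_one_iff_of_normal k Ω W).1 hW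
  have : IsGalois k E := {}
  obtain ⟨a, ha⟩ := h E h1 h2
  refine ⟨E ≃ₐ[k] E, inferInstance, inferInstance, AlgEquiv.restrictNormalHom E,
    AlgEquiv.restrictNormalHom_surjective Ω, fun g hg => h3 ?_, a, ?_⟩
  · rw [← E.restrictNormalHom_ker]
    exact hg
  · rw [← ha, ← IsGalois.card_aut_eq_finrank, Nat.card_eq_fintype_card]

theorem exists_trace_one (W : Set (Ω ≃ₐ[k] Ω)) (hW : W ∈ 𝓝 1) :
    ∃ (Q : Type) (_ : Group Q) (_ : Fintype Q) (π : (Ω ≃ₐ[k] Ω) →* Q) (s : Q → (Ω ≃ₐ[k] Ω))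
      (x : Ω), (∀ q, π (s q) = q) ∧ (∀ g, π g = 1 → g ∈ W) ∧
      (∀ g g', π g = π g' → g x = g' x) ∧ ∑ q, s q x = 1 := by
  obtain ⟨E, h1, h2, h3⟩ := (krullTopology_mem_nhds_one_iff_of_normal k Ω W).1 hW
  have : IsGalois k E := {}
  obtain ⟨s, hs⟩ := (AlgEquiv.restrictNormalHom_surjective (F := k) (K₁ := E) Ω).hasRightInverse
  obtain ⟨x, hx⟩ := Algebra.trace_surjective k E 1
  have key : ∀ g : Ω ≃ₐ[k] Ω, g (x : Ω) = ((AlgEquiv.restrictNormalHom E g x : E) : Ω) :=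
    fun g => (AlgEquiv.restrictNormal_commutes g E x).symm
  refine ⟨E ≃ₐ[k] E, inferInstance, inferInstance, AlgEquiv.restrictNormalHom E, s, x, hs,
    fun g hg => h3 ?_, fun g g' hg => by rw [key, key, hg], ?_⟩
  · rw [← E.restrictNormalHom_ker]
    exact hg
  · have h4 := trace_eq_sum_automorphisms (K := k) x
    rw [hx, map_one] at h4
    have h5 := congrArg (fun y : E => (y : Ω)) h4
    simp only [OneMemClass.coe_one, AddSubmonoidClass.coe_finsetSum] at h5
    rw [h5]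
    refine Finset.sum_congr rfl (fun q _ => ?_)
    rw [key, hs q]

/-- Multiplication by a conjugate of `x`. -/
def wt (x : Ω) (g : Ω ≃ₐ[k] Ω) : Ω →+ Ω := AddMonoidHom.mulLeft (g x)

section
variable [TopologicalSpace Ω] [DiscreteTopology Ω]

theorem cont_act : ContinuousSMul (Ω ≃ₐ[k] Ω) Ω :=
  continuousSMul_iff_stabilizer_isOpen.2 (fun x => stabilizer_isOpen_of_isIntegral x)

theorem h2_add (φ : (Ω ≃ₐ[k] Ω) → (Ω ≃ₐ[k] Ω) → Ω)
    (hc : Continuous (fun p : (Ω ≃ₐ[k] Ω) × (Ω ≃ₐ[k] Ω) => φ p.1 p.2))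
    (hφ : ∀ g h j, φ (g * h) j + φ g h = g • φ h j + φ g (h * j)) :
    ∃ ψ : (Ω ≃ₐ[k] Ω) → Ω, Continuous ψ ∧ ∀ g h, φ g h = ψ g + g • ψ h - ψ (g * h) := by
  have := cont_act (k := k) (Ω := Ω)
  have : ContinuousAdd Ω := ⟨continuous_of_discreteTopology⟩
  have : ContinuousMul Ω := ⟨continuous_of_discreteTopology⟩
  obtain ⟨Q, _, _, π, s, x, hs, hW, hx, h1⟩ := exists_trace_one _ (unif_nhds φ hc)
  refine ⟨fun g => ∑ q, wt x (g * s q) (φ g (s q)), ?_, fun g h => ?_⟩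
  · refine continuous_finsetSum _ (fun q _ => ?_)
    change Continuous (fun g : Ω ≃ₐ[k] Ω => ((g * s q) • x) * φ g (s q))
    exact Continuous.mul (by fun_prop) (hc.comp (f := fun g => (g, s q)) (by fun_prop))
  · rw [← avg2 π s hs (wt x) (fun g g' h => by simp only [wt, hx g g' h])
      (fun g h y => by simp [wt]) φ (by
        intro g j j' hj
        have := hW (j⁻¹ * j') (by simp [hj]) g j
        rw [← this]; simp) hφ g h]
    simp only [wt, AddMonoidHom.coe_mulLeft]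
    rw [← Finset.sum_mul, h1, one_mul]

theorem h1_add (c : (Ω ≃ₐ[k] Ω) → Ω) (hc : Continuous c)
    (hφ : ∀ g h, c (g * h) = c g + g • c h) : ∃ b : Ω, ∀ g, c g = b - g • b := by
  obtain ⟨Q, _, _, π, s, x, hs, hW, hx, h1⟩ := exists_trace_one _
    (unif_nhds (fun _ j => c j) (hc.comp continuous_snd))
  refine ⟨∑ q, wt x (s q) (c (s q)), fun g => ?_⟩
  rw [← avg1 π s hs (wt x) (fun g g' h => by simp only [wt, hx g g' h])
      (fun g h y => by simp [wt]) c (by
        intro j j' hj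
        have := hW (j⁻¹ * j') (by simp [hj]) 1 j
        rw [← this]; simp) hφ g]
  simp only [wt, AddMonoidHom.coe_mulLeft]
  rw [← Finset.sum_mul, h1, one_mul]

end

theorem h2Zero_gal (p : ℕ) [Fact p.Prime] [CharP Ω p] [IsSepClosed Ω] :
    H2Zero p (Ω ≃ₐ[k] Ω) := by
  classical
  intro φ hc hφ
  let _ : TopologicalSpace Ω := ⊥
  have : DiscreteTopology Ω := ⟨rfl⟩
  have := cont_act (k := k) (Ω := Ω)
  have : ContinuousSub Ω := ⟨continuous_of_discreteTopology⟩
  let ι : ZMod p →+* Ω := ZMod.castHom (dvd_refl p) Ω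
  have hι : ∀ (g : Ω ≃ₐ[k] Ω) (z : ZMod p), g • ι z = ι z := by
    intro g z
    rw [← ZMod.natCast_zmod_val z, map_natCast]
    exact map_natCast g _
  have hιp : ∀ z, ι z ^ p = ι z := fun z => by rw [← map_pow, ZMod.pow_card]
  have hrange : ∀ y : Ω, y ^ p = y → ∃ z, ι z = y := by
    intro y hy
    rw [← Subfield.mem_bot_iff_pow_eq_self] at hy
    have : (⊥ : Subfield Ω) ≤ ι.fieldRange := bot_le
    exact this hy
  obtain ⟨ψ, hψc, hψ⟩ := h2_add (fun g h => ι (φ g h))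
    ((continuous_of_discreteTopology (f := ι)).comp hc) (by
      intro g h j
      rw [hι, ← map_add, ← map_add, hφ])
  let P : Ω →+ Ω := (frobenius Ω p).toAddMonoidHom - AddMonoidHom.id Ω
  have hP : ∀ y, P y = y ^ p - y := fun y => rfl
  have hPg : ∀ (g : Ω ≃ₐ[k] Ω) (y : Ω), P (g • y) = g • P y := by
    intro g y
    simp [hP]
  obtain ⟨b, hb⟩ := h1_add (fun g => P (ψ g))
    ((continuous_of_discreteTopology (f := P)).comp hψc) (by
      intro g h
      have h1 := congrArg P (hψ g h)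
      rw [hP, hιp, sub_self, map_sub, map_add, hPg] at h1
      exact (sub_eq_zero.1 h1.symm).symm)
  obtain ⟨a, ha⟩ := IsSepClosed.exists_root_C_mul_X_pow_add_C_mul_X_add_C' p p (1 : Ω) (-1) (-b)
    (dvd_refl p) (Fact.out : p.Prime).two_le (by simp)
  have ha' : P a = b := by
    rw [hP]
    have : a ^ p - a - b = 0 := by
      rw [← ha]; simp; ring
    exact sub_eq_zero.1 this
  have h0 : ∀ g : Ω ≃ₐ[k] Ω, ∃ z, ι z = ψ g - (a - g • a) := by
    intro g
    apply hrange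
    rw [← sub_eq_zero, ← hP, map_sub, map_sub, hPg, ha', hb, sub_self]
  let r : Ω → ZMod p := fun y => if h : ∃ z, ι z = y then h.choose else 0
  have hr : ∀ g : Ω ≃ₐ[k] Ω, ι (r (ψ g - (a - g • a))) = ψ g - (a - g • a) := by
    intro g
    simp only [r, dif_pos (h0 g)]
    exact (h0 g).choose_spec
  refine ⟨fun g => r (ψ g - (a - g • a)),
    (continuous_of_discreteTopology (f := r)).comp (by fun_prop), fun g h => ?_⟩
  apply ι.injective
  rw [map_sub, map_add, ← hι g (r (ψ h - _)), hr, hr, hr, hψ]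
  simp only [smul_sub, mul_smul]
  abel

end Pool.Agent.P.MP_8f38d0_ag
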