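import Mathlib
import Pool.Agent.P.MP_8f38d0_ag.Closure

set_option autoImplicit false

namespace Pool.Agent.P.MP_8f38d0_ag

open Polynomial
open scoped nonZeroDivisors

/-- The value of the cubic form. -/
def cub {A : Type} [CommRing A] {n : ℕ} (t : Fin (n + 1) → A) (e : A) (x : Fin (n + 1) → A) : A :=
  ∑ i, t i * x i ^ 3 + e * ∑ i : Fin n, x i.castSucc ^ 2 * x i.succ

theorem map_cub {A B : Type} [CommRing A] [CommRing B] (f : A →+* B) {n : ℕ}
    (t : Fin (n + 1) → A) (e : A) (x : Fin (n + 1) → A) :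
    f (cub t e x) = cub (fun i => f (t i)) (f e) (fun i => f (x i)) := by
  simp [cub]

theorem cub_smul {A : Type} [CommRing A] {n : ℕ} (t : Fin (n + 1) → A) (e c : A)
    (x : Fin (n + 1) → A) : cub t e (fun i => c * x i) = c ^ 3 * cub t e x := by
  simp only [cub, mul_add, Finset.mul_sum]
  congr 1 <;> exact Finset.sum_congr rfl (fun i _ => by ring)

theorem exists_scale {S E ι : Type} [CommRing S] [IsDedekindDomain S] [Field E] [Algebra S E]
    [IsFractionRing S E] [Fintype ι] (P : Ideal S) (hP : P ≠ ⊤) (x : ι → E) (hx : x ≠ 0) :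
    ∃ (c : E) (z : ι → S), (∀ i, algebraMap S E (z i) = c * x i) ∧ ∃ i, z i ∉ P := by
  classical
  by_contra hcon
  push Not at hcon
  let I : FractionalIdeal S⁰ E := FractionalIdeal.spanFinset S Finset.univ x
  have hI : I ≠ 0 := by
    rw [FractionalIdeal.spanFinset_ne_zero]
    obtain ⟨i, hi⟩ := Function.ne_iff.1 hx
    exact ⟨i, Finset.mem_univ _, hi⟩
  have hxI : ∀ i, x i ∈ I := fun i => Submodule.subset_span ⟨i, by simp, rfl⟩
  have h1 : I⁻¹ * I = 1 := inv_mul_cancel₀ hI
  have h2 : I⁻¹ * I ≤ (P : FractionalIdeal S⁰ E) := by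
    rw [FractionalIdeal.mul_le]
    intro c hc y hy
    have h3 : ∀ i, ∃ z, algebraMap S E z = c * x i := by
      intro i
      rw [← FractionalIdeal.mem_one_iff S⁰, ← h1]
      exact FractionalIdeal.mul_mem_mul hc (hxI i)
    choose z hz using h3
    have h4 := hcon c z hz
    have hy' : y ∈ Submodule.span S (x '' (Finset.univ : Finset ι)) := hy
    change c * y ∈ ((P : FractionalIdeal S⁰ E) : Submodule S E)
    clear hy
    induction hy' using Submodule.span_induction with
    | mem y hy =>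
      obtain ⟨i, -, rfl⟩ := hy
      exact (FractionalIdeal.mem_coeIdeal S⁰).2 ⟨z i, h4 i, hz i⟩
    | zero => simp
    | add a b _ _ ha hb => rw [mul_add]; exact Submodule.add_mem _ ha hb
    | smul a b _ hb => rw [mul_smul_comm]; exact Submodule.smul_mem _ _ hb
  rw [h1, ← FractionalIdeal.coeIdeal_top, FractionalIdeal.coeIdeal_le_coeIdeal] at h2
  exact hP (top_le_iff.1 h2)

theorem indep_of_separable {κ l ι : Type} [Field κ] [Field l] [Algebra κ l] [Fintype ι]
    [Algebra.IsSeparable κ l] [CharP κ 3] (t : ι → κ)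
    (ht : ∀ y : ι → κ, ∑ i, t i * y i ^ 3 = 0 → y = 0)
    (y : ι → l) (hy : ∑ i, algebraMap κ l (t i) * y i ^ 3 = 0) : y = 0 := by
  classical
  have : Fact (Nat.Prime 3) := ⟨Nat.prime_three⟩
  have : CharP l 3 := charP_of_injective_algebraMap (algebraMap κ l).injective 3
  let b := Module.Basis.ofVectorSpace κ l
  have hb := b.linearIndependent.map_pow_expChar_pow_of_isSeparable 3 1
  let T := Finset.univ.biUnion (fun i => (b.repr (y i)).support)
  have hyi : ∀ i, y i = ∑ j ∈ T, b.repr (y i) j • b j := by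
    intro i
    conv_lhs => rw [← b.linearCombination_repr (y i)]
    rw [Finsupp.linearCombination_apply, Finsupp.sum_of_support_subset _
      (Finset.subset_biUnion_of_mem (fun i => (b.repr (y i)).support) (Finset.mem_univ i))]
    simp
  have h1 : ∑ j ∈ T, (∑ i, t i * (b.repr (y i) j) ^ 3) • (b j ^ 3 ^ 1) = 0 := by
    rw [← hy]
    simp_rw [Finset.sum_smul]
    rw [Finset.sum_comm]
    refine Finset.sum_congr rfl (fun i _ => ?_)
    conv_rhs => rw [hyi i, sum_pow_char, Finset.mul_sum]
    refine Finset.sum_congr rfl (fun j _ => ?_)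
    simp only [Algebra.smul_def, map_mul, map_pow, mul_pow, pow_one, mul_assoc]
  have h2 := linearIndependent_iff'.1 hb T _ h1
  funext i
  rw [hyi i]
  refine Finset.sum_eq_zero (fun j hj => ?_)
  have := congrFun (ht _ (h2 j hj)) i
  simp only [Pi.zero_apply] at this
  rw [this, zero_smul]

theorem cub_aniso {R K E : Type} [CommRing R] [IsDedekindDomain R] [Field K] [Algebra R K]
    [IsFractionRing R K] [Field E] [Algebra K E] [FiniteDimensional K E] [CharP K 3]
    (hE : ¬ 3 ∣ Module.finrank K E) (𝔭 : Ideal R) [𝔭.IsMaximal] (h𝔭 : 𝔭 ≠ ⊥)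
    [CharP (R ⧸ 𝔭) 3] {n : ℕ} (t : Fin (n + 1) → R) (e : R) (he : e ∈ 𝔭)
    (ht : ∀ y : Fin (n + 1) → R ⧸ 𝔭, ∑ i, Ideal.Quotient.mk 𝔭 (t i) * y i ^ 3 = 0 → y = 0)
    (x : Fin (n + 1) → E)
    (hx : cub (fun i => algebraMap K E (algebraMap R K (t i)))
      (algebraMap K E (algebraMap R K e)) x = 0) : x = 0 := by
  classical
  let _ : Algebra R E := ((algebraMap K E).comp (algebraMap R K)).toAlgebra
  have : IsScalarTower R K E := IsScalarTower.of_algebraMap_eq (fun _ => rfl)
  have : Algebra.IsSeparable K E := isSeparable_of_not_dvd 3 hE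
  let S := integralClosure R E
  have : IsDedekindDomain S := integralClosure.isDedekindDomain R K E
  have : IsFractionRing S E := integralClosure.isFractionRing_of_finite_extension K E
  have : Module.Finite R S := IsIntegralClosure.finite R K E S
  have : FaithfulSMul R E := (faithfulSMul_iff_algebraMap_injective R E).2
    ((algebraMap K E).injective.comp (IsFractionRing.injective R K))
  have hsum := Ideal.sum_ramification_inertia S K E h𝔭
  obtain ⟨P, hP, hf⟩ : ∃ P ∈ IsDedekindDomain.primesOverFinset 𝔭 S,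
      ¬ 3 ∣ Ideal.inertiaDeg' 𝔭 P := by
    by_contra hcon
    push Not at hcon
    apply hE
    rw [← hsum]
    exact Finset.dvd_sum (fun P hP => (hcon P hP).mul_left _)
  rw [IsDedekindDomain.mem_primesOverFinset_iff h𝔭] at hP
  obtain ⟨hP1, hP2⟩ := hP
  have hPm : P.IsMaximal := Ideal.IsMaximal.of_liesOver_isMaximal P 𝔭
  rw [Ideal.inertiaDeg'_algebraMap] at hf
  let _ : Field (R ⧸ 𝔭) := Ideal.Quotient.field 𝔭
  let _ : Field (S ⧸ P) := Ideal.Quotient.field P
  have : Algebra.IsSeparable (R ⧸ 𝔭) (S ⧸ P) := isSeparable_of_not_dvd 3 hf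
  by_contra hx0
  obtain ⟨c, z, hz, i, hi⟩ := exists_scale P hPm.ne_top x hx0
  have h1 : cub (fun i => algebraMap R S (t i)) (algebraMap R S e) z = 0 := by
    apply IsFractionRing.injective S E
    rw [map_cub, map_zero]
    simp only [hz]
    rw [cub_smul]
    have : ∀ r : R, algebraMap S E (algebraMap R S r) = algebraMap K E (algebraMap R K r) :=
      fun r => rfl
    simp only [this]
    rw [hx, mul_zero]
  have h2 := congrArg (Ideal.Quotient.mk P) h1
  rw [map_cub, map_zero] at h2
  have h3 : Ideal.Quotient.mk P (algebraMap R S e) = 0 :=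
    Ideal.Quotient.eq_zero_iff_mem.2 ((Ideal.mem_of_liesOver P 𝔭 e).1 he)
  simp only [cub, h3, zero_mul, add_zero] at h2
  have h4 := indep_of_separable (fun i => Ideal.Quotient.mk 𝔭 (t i)) ht
    (fun i => Ideal.Quotient.mk P (z i)) h2
  exact hi (Ideal.Quotient.eq_zero_iff_mem.1 (congrFun h4 i))

end Pool.Agent.P.MP_8f38d0_ag
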