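import Mathlib
import Pool.Agent.P.MP_8f38d0_ag.Special
import Pool.Agent.P.MP_8f38d0_ag.Galois
import Pool.Agent.P.MP_8f38d0_ag.Cohom

set_option autoImplicit false

namespace Pool.Agent.P.MP_8f38d0_ag

open MvPolynomial

/-- The cubic form as a polynomial. -/
noncomputable def cubPoly {k : Type} [CommRing k] {n : ℕ} (t : Fin (n + 1) → k) (e : k) :
    MvPolynomial (Fin (n + 1)) k := cub (fun i => C (t i)) (C e) X

theorem cubPoly_hom {k : Type} [CommRing k] {n : ℕ} (t : Fin (n + 1) → k) (e : k) :
    (cubPoly t e).IsHomogeneous 3 := by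
  unfold cubPoly cub
  refine IsHomogeneous.add (IsHomogeneous.sum _ _ _ (fun i _ => ?_)) ?_
  · exact IsHomogeneous.C_mul (isHomogeneous_X_pow i 3) _
  · refine IsHomogeneous.C_mul (IsHomogeneous.sum _ _ _ (fun i _ => ?_)) _
    exact (isHomogeneous_X_pow i.castSucc 2).mul (isHomogeneous_X k i.succ)

theorem aeval_cubPoly {k L : Type} [CommRing k] [CommRing L] [Algebra k L] {n : ℕ}
    (t : Fin (n + 1) → k) (e : k) (x : Fin (n + 1) → L) :
    aeval x (cubPoly t e) = cub (fun i => algebraMap k L (t i)) (algebraMap k L e) x := by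
  simp [cubPoly, cub]

theorem cubPoly_smooth {k L : Type} [Field k] [Field L] [Algebra k L] [CharP k 3] {n : ℕ}
    (t : Fin (n + 1) → k) (e : k) (ht : t (Fin.last n) ≠ 0) (he : e ≠ 0) (x : Fin (n + 1) → L)
    (h0 : aeval x (cubPoly t e) = 0) (h1 : ∀ i, aeval x (pderiv i (cubPoly t e)) = 0) :
    x = 0 := by
  classical
  have : CharP L 3 := charP_of_injective_algebraMap (algebraMap k L).injective 3
  have h3 : (3 : L) = 0 := CharP.cast_eq_zero L 3
  have he' : algebraMap k L e ≠ 0 := by simpa using he
  have hder : ∀ j, aeval x (pderiv j (cubPoly t e)) = algebraMap k L e *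
      ∑ i : Fin n, ((if i.castSucc = j then 2 * x i.castSucc * x i.succ else 0) +
        (if i.succ = j then x i.castSucc ^ 2 else 0)) := by
    intro j
    simp only [cubPoly, cub, map_add, map_sum, pderiv_C_mul, map_mul, aeval_C]
    rw [Finset.sum_eq_zero, zero_add]
    · congr 1
      refine Finset.sum_congr rfl (fun i _ => ?_)
      simp only [Derivation.leibniz, Derivation.leibniz_pow, pderiv_X, smul_eq_mul, map_add,
        map_mul, map_pow, aeval_X, nsmul_eq_mul, Pi.single_apply, map_natCast]
      split_ifs <;> simp <;> ring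
    · intro i _
      simp [Derivation.leibniz_pow, h3]
  have key : ∀ m, ∀ i : Fin n, n - i ≤ m → x i.castSucc = 0 := by
    intro m
    induction m with
    | zero => intro i hi; have := i.2; omega
    | succ m ih =>
      intro i0 hi0
      have h4 := h1 i0.succ
      rw [hder, mul_eq_zero, Finset.sum_add_distrib, Finset.sum_eq_zero, zero_add] at h4
      · simpa [he'] using h4
      · intro i _
        split_ifs with h5
        · have h6 : (i : ℕ) = i0 + 1 := by simpa using congrArg Fin.val h5
          rw [ih i (by omega)]; simp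
        · rfl
  have key' : ∀ i : Fin n, x i.castSucc = 0 := fun i => key _ i le_rfl
  rw [aeval_cubPoly] at h0
  simp only [cub, Fin.sum_univ_castSucc, key'] at h0
  have h5 : x (Fin.last n) = 0 := by simpa [ht] using h0
  funext i
  induction i using Fin.lastCases with
  | last => exact h5
  | cast i => exact key' i

theorem indep_poly {ι : Type} [Fintype ι] (y : ι → MvPolynomial ι (ZMod 3))
    (h : ∑ i, X i * y i ^ 3 = 0) : y = 0 := by
  classical
  funext j
  have h3 : (3 : MvPolynomial ι (ZMod 3)) = 0 := CharP.cast_eq_zero _ 3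
  have := congrArg (pderiv j) h
  simpa [Derivation.leibniz, Derivation.leibniz_pow, h3, Pi.single_apply] using this

theorem indep_frac {ι : Type} [Fintype ι] (y : ι → FractionRing (MvPolynomial ι (ZMod 3)))
    (h : ∑ i, algebraMap (MvPolynomial ι (ZMod 3)) _ (X i) * y i ^ 3 = 0) : y = 0 := by
  classical
  obtain ⟨b, hb⟩ := IsLocalization.exist_integer_multiples_of_finite
    (nonZeroDivisors (MvPolynomial ι (ZMod 3))) y
  choose z hz using hb
  have hinj := IsFractionRing.injective (MvPolynomial ι (ZMod 3))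
    (FractionRing (MvPolynomial ι (ZMod 3)))
  have hb0 : algebraMap (MvPolynomial ι (ZMod 3)) (FractionRing (MvPolynomial ι (ZMod 3))) b ≠ 0 :=
    (map_ne_zero_iff _ hinj).2 (nonZeroDivisors.ne_zero b.2)
  have h1 : ∑ i, X i * z i ^ 3 = 0 := by
    apply hinj
    simp only [map_sum, map_mul, map_pow, hz, Algebra.smul_def, map_zero]
    have := congrArg (fun w => (algebraMap (MvPolynomial ι (ZMod 3))
      (FractionRing (MvPolynomial ι (ZMod 3))) b) ^ 3 * w) h
    simp only [Finset.mul_sum, mul_zero] at this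
    rw [← this]
    exact Finset.sum_congr rfl (fun i _ => by ring)
  have h2 := indep_poly z h1
  funext i
  have h3 := hz i
  rw [h2, Pi.zero_apply, map_zero, Algebra.smul_def] at h3
  exact (mul_eq_zero.1 h3.symm).resolve_left hb0

/-- The base field: a form without zeros over extensions of degree prime to three. -/
theorem exists_base (n : ℕ) : ∃ (K : Type) (_ : Field K) (_ : CharP K 3) (t : Fin (n + 1) → K)
    (e : K), t (Fin.last n) ≠ 0 ∧ e ≠ 0 ∧
    ∀ (E : Type) [Field E] [Algebra K E] [FiniteDimensional K E], ¬ 3 ∣ Module.finrank K E →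
      ∀ x : Fin (n + 1) → E,
        cub (fun i => algebraMap K E (t i)) (algebraMap K E e) x = 0 → x = 0 := by
  have : Fact (Nat.Prime 3) := ⟨Nat.prime_three⟩
  obtain ⟨K0, _, _, t0, ht0⟩ : ∃ (K0 : Type) (_ : Field K0) (_ : CharP K0 3)
      (t0 : Fin (n + 1) → K0), ∀ y : Fin (n + 1) → K0, ∑ i, t0 i * y i ^ 3 = 0 → y = 0 :=
    ⟨FractionRing (MvPolynomial (Fin (n + 1)) (ZMod 3)), inferInstance,
      charP_of_injective_algebraMap (IsFractionRing.injective
        (MvPolynomial (Fin (n + 1)) (ZMod 3)) _) 3, _, indep_frac⟩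
  let R := Polynomial K0
  let K := FractionRing R
  have hinj := IsFractionRing.injective R K
  have : CharP K 3 := charP_of_injective_algebraMap hinj 3
  let 𝔭 : Ideal R := Ideal.span {Polynomial.X}
  have : 𝔭.IsMaximal := PrincipalIdealRing.isMaximal_of_irreducible Polynomial.irreducible_X
  have h𝔭 : 𝔭 ≠ ⊥ := fun h => Polynomial.X_ne_zero (Ideal.span_singleton_eq_bot.1 h)
  let φ : K0 →+* R ⧸ 𝔭 := (Ideal.Quotient.mk 𝔭).comp Polynomial.C
  have : Nontrivial (R ⧸ 𝔭) := Ideal.Quotient.nontrivial_iff.2 (Ideal.IsMaximal.ne_top ‹_›)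
  have hφ : Function.Surjective φ := by
    intro z
    obtain ⟨f, rfl⟩ := Ideal.Quotient.mk_surjective z
    refine ⟨f.coeff 0, Ideal.Quotient.eq.2 (Ideal.mem_span_singleton.2 ?_)⟩
    rw [Polynomial.X_dvd_iff, Polynomial.coeff_sub, Polynomial.coeff_C_zero, sub_self]
  have : CharP (R ⧸ 𝔭) 3 := charP_of_injective_ringHom φ.injective 3
  refine ⟨K, inferInstance, inferInstance, fun i => algebraMap R K (Polynomial.C (t0 i)),
    algebraMap R K Polynomial.X, ?_, ?_, fun E _ _ _ hE x hx => ?_⟩
  · rw [map_ne_zero_iff _ hinj, Polynomial.C_ne_zero]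
    intro h
    have := ht0 (Pi.single (Fin.last n) 1) (by
      rw [Finset.sum_eq_single (Fin.last n)]
      · simp [h]
      · intro b _ hb; simp [hb]
      · simp)
    simpa using congrFun this (Fin.last n)
  · rw [map_ne_zero_iff _ hinj]
    exact Polynomial.X_ne_zero
  · refine cub_aniso hE 𝔭 h𝔭 (fun i => Polynomial.C (t0 i)) Polynomial.X
      (Ideal.mem_span_singleton_self _) (fun y hy => ?_) x hx
    choose a ha using fun i => hφ (y i)
    have h1 : φ (∑ i, t0 i * a i ^ 3) = 0 := by
      rw [← hy, map_sum]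
      exact Finset.sum_congr rfl (fun i _ => by rw [map_mul, map_pow, ha]; rfl)
    have h2 := ht0 a ((map_eq_zero_iff φ φ.injective).1 h1)
    funext i
    rw [← ha i, h2]
    simp

theorem cd_of {k : Type} [Field k] (p : ℕ) [Fact p.Prime] [CharP k p]
    (hk : ∀ f : Polynomial k, Irreducible f → ¬ p ∣ f.natDegree → f.natDegree = 1)
    (A : TopRep.{0} ℤ (SeparableClosure k ≃ₐ[k] SeparableClosure k)) (hA : Good A) (q : ℕ) :
    CategoryTheory.Limits.IsZero (continuousCohomology (q + 2) A) := by
  have : CharP (SeparableClosure k) p :=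
    charP_of_injective_algebraMap (algebraMap k (SeparableClosure k)).injective p
  refine cohomology_isZero (p := p) (proP_gal (fun E h1 h2 => ?_)) (h2Zero_gal p) A hA q
  have : IsGalois k E := {}
  exact finrank_pow_of_galois hk

theorem main (n : ℕ) : ∃ (k : Type) (_ : Field k) (_ : CharP k 3)
    (F : MvPolynomial (Fin (n + 1)) k),
    (∀ (A : TopRep.{0} ℤ (SeparableClosure k ≃ₐ[k] SeparableClosure k)), Good A → ∀ q : ℕ,
      CategoryTheory.Limits.IsZero (continuousCohomology (q + 2) A)) ∧
    F.IsHomogeneous 3 ∧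
    (∀ x : Fin (n + 1) → AlgebraicClosure k, aeval x F = 0 →
      (∀ i, aeval x (pderiv i F) = 0) → x = 0) ∧
    ∀ (L : Type) [Field L] [Algebra k L] [FiniteDimensional k L],
      (∃ x : Fin (n + 1) → L, x ≠ 0 ∧ aeval x F = 0) → 3 ∣ Module.finrank k L := by
  have : Fact (Nat.Prime 3) := ⟨Nat.prime_three⟩
  obtain ⟨K, _, _, t, e, ht, he, hK⟩ := exists_base n
  obtain ⟨k, hk1, hk2⟩ := exists_maximal_primeTo (K := K) (Ω := AlgebraicClosure K) 3
  have hchar : CharP k 3 := charP_of_injective_algebraMap (algebraMap K k).injective 3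
  refine ⟨k, inferInstance, hchar, cubPoly (fun i => algebraMap K k (t i)) (algebraMap K k e),
    cd_of 3 hk2, cubPoly_hom _ _, fun x => cubPoly_smooth _ _ (by simpa using ht)
      (by simpa using he) x, fun L _ _ _ => ?_⟩
  · rintro ⟨x, hx0, hx⟩
    by_contra hL
    choose y hy using fun i => surj_of_not_dvd hk2 hL (x i)
    have h1 : cub (fun i => algebraMap K k (t i)) (algebraMap K k e) y = 0 := by
      apply (algebraMap k L).injective
      rw [map_cub, map_zero, ← hx, aeval_cubPoly]
      simp only [hy]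
    let s : Set (AlgebraicClosure K) := Set.range (fun i => (y i : AlgebraicClosure K))
    let E := IntermediateField.adjoin K s
    have hle : E ≤ k := by
      rw [IntermediateField.adjoin_le_iff]
      rintro _ ⟨i, rfl⟩
      exact (y i).2
    have : FiniteDimensional K E :=
      IntermediateField.finiteDimensional_adjoin (fun x _ => Algebra.IsIntegral.isIntegral x)
    let z : Fin (n + 1) → E := fun i => ⟨y i, IntermediateField.subset_adjoin K s ⟨i, rfl⟩⟩
    have h2 := hK E (hk1.finrank E hle) z (by
      apply (IntermediateField.inclusion hle).toRingHom.injective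
      rw [map_cub, map_zero, ← h1]
      rfl)
    apply hx0
    funext i
    have h4 : ((z i : E) : AlgebraicClosure K) = ((0 : E) : AlgebraicClosure K) :=
      congrArg Subtype.val (congrFun h2 i)
    have h3 : y i = 0 := Subtype.ext h4
    rw [← hy i, h3, map_zero]
    rfl

end Pool.Agent.P.MP_8f38d0_ag
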